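import Pool.Agent.H14.P5.Num

/-!
# P5: the assembly of the cell side, statement
-/

set_option autoImplicit false

namespace Pool.P5

open Finset Real MvPolynomial
open Pool.Agent.H49.Ent Pool.Agent.H32.Dense Pool.STK Pool.STAT Pool.MIC.Frm Pool.MIC7 Pool.FRM
open Pool.GSD
open Pool.BFL (Pb)
open Pool.QC (nfb)
open Pool.P4 (t0 rt pp PthC FraC bb ze zt z0 be cl1 dg dgp Ry cb LLC tq GoodS FrP err)

/-- **The entropies of a picture**, with the error `d`. -/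
structure Ent5 (D : NDat2) (J w z i j r X : ℕ) (C : ℝ) (P : D.Γ × D.Γ → ℕ → PN) (S : Slo D)
    {c k0 k1 : ℕ} (ys : Fin (k0 + k1) → ℕ) (gs : Fin c → ℕ) (q : D.Ω → ℝ) (n₀ : Fin c)
    (B B' : ℕ) (h d : ℝ) : Prop where
  h0 : CH q (tv (c := c) D J w z i j r X C S ys gs) (cb D J w i j r) ≤
    CH q (tv (c := c) D J w z i j r X C S ys gs)
      (qh (c := c) (k0 := k0) (k1 := k1) D J w z i j r X C P S ys gs q).line + d
  h2 : CH q (qh (c := c) (k0 := k0) (k1 := k1) D J w z i j r X C P S ys gs q).hgt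
      (fun ω => (tv (c := c) D J w z i j r X C S ys gs ω, cb D J w i j r ω)) ≤
    CH q (qh (c := c) (k0 := k0) (k1 := k1) D J w z i j r X C P S ys gs q).hgt
      (fun ω => (vv D J w z i j r X C P ys gs ω,
        (tv (c := c) D J w z i j r X C S ys gs ω, cb D J w i j r ω))) + d
  yf : ((k0 : ℝ) + k1) * X * Real.log 2 ≤
    CH q (yv (k0 := k0) (k1 := k1) D J w z i j r X C P ys)
      (fun ω => (cb D J w i j r ω, D.T ω)) + d
  lf : (k1 : ℝ) * X * Real.log 2 ≤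
    CH q (fun ω (l : Fin k1) => yv (k0 := k0) (k1 := k1) D J w z i j r X C P ys ω
        (Fin.natAdd k0 l))
      (fun ω => (cb D J w i j r ω, ((fun a : Fin k0 =>
        yv (k0 := k0) (k1 := k1) D J w z i j r X C P ys ω (Fin.castAdd k1 a)),
          (mv D J w z i j r X C P ys ω, be2v D J w z i j r X C P gs ω)))) + d
  rf : (k0 : ℝ) * X * Real.log 2 ≤
    CH q (fun ω (a : Fin k0) => yv (k0 := k0) (k1 := k1) D J w z i j r X C P ys ω
        (Fin.castAdd k1 a))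
      (fun ω => (cb D J w i j r ω, (tv (c := c) D J w z i j r X C S ys gs ω,
        fR J w X (tv (c := c) D J w z i j r X C S ys gs ω)
          (vv D J w z i j r X C P ys gs ω)))) + d
  tf : X * Real.log 2 ≤ CH q (fun ω => tq J w X (D.T ω)) (cb D J w i j r) + d
  nf : CH q (fun ω => nuv D J w z i j r X C P gs ω n₀)
      (fun ω => ((fun u : {u : Fin c // u ≠ n₀} => nuv D J w z i j r X C P gs ω u),
        (vv D J w z i j r X C P ys gs ω,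
          (tv D J w z i j r X C S ys gs ω, cb D J w i j r ω)))) ≤
      (1 - h / B) * X * Real.log 2 + d
  hs : ∀ x ≤ X, ((c : ℝ) - 1) * (((X : ℝ) - x) * Real.log 2) - d ≤
    CH q (fun ω (u : {u : Fin c // u ≠ n₀}) => nuv D J w z i j r X C P gs ω u)
      (fun ω => ((fun u => nuv D J w z i j r X C P gs ω u / 2 ^ (X - x)),
        (vv D J w z i j r X C P ys gs ω,
          (tv (k0 := k0) (k1 := k1) D J w z i j r X C S ys gs ω, cb D J w i j r ω))))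
  nb : nfb q (nuv D J w z i j r X C P gs) (fun ω => (vv D J w z i j r X C P ys gs ω,
      (tv D J w z i j r X C S ys gs ω, cb D J w i j r ω))) n₀ X B' ≤
    (1 - h / (2 * B)) * X * Real.log 2

/-- **(CELLF)** In every cell there is a place whose picture has small errors. The constant `C` of
the picture is at least `F K' C₀` for a given `F`, the geometry holds at the constant `C₀`. -/
def CellFStmt : Prop :=
  ∀ (n K B : ℕ) (lam gam : ℕ → ℝ) (C₁ h : ℝ) (c k0 k1 : ℕ) (ys : Fin (k0 + k1) → ℕ)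
    (gs : Fin c → ℕ) (n₀ : Fin c), 1 ≤ n → 1 ≤ B → (∀ l, 1 ≤ l → l ≤ n → lam l = 1) →
    Gam3 n gam → 1 ≤ C₁ → 0 < h → h ≤ 1 → Function.Injective ys →
    (∀ a, sl0 gam n (ys (Fin.castAdd k1 a))) → (∀ a, sl1 gam n (ys (Fin.natAdd k0 a))) →
    (∀ l, sl0 gam n l → ∃ a, ys (Fin.castAdd k1 a) = l) →
    (∀ l, sl1 gam n l → ∃ a, ys (Fin.natAdd k0 a) = l) →
    (∀ u, gr gam n (gs u)) → StrictMono gs → (∀ l, gr gam n l → ∃ u, gs u = l) →
    gs n₀ = n → ∀ (CL : ℝ) (F : ℕ → ℝ → ℝ),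
    ∃ (K' : ℕ) (C₀ C : ℝ), 1 ≤ C₀ ∧ C₀ ≤ C ∧ F K' C₀ ≤ C ∧ ∀ η : ℝ, 0 < η → ∃ s : ℝ, 0 < s ∧
    ∀ (B' U₀ y₀ : ℕ) (io : ℝ), 1 ≤ B' → 0 < io →
    ∃ U y r r2 r' r'' a i j : ℕ, 1 ≤ U ∧ U₀ ≤ U ∧ y₀ ≤ y ∧ ∀ M₀ : ℕ, ∃ M : ℕ, M₀ ≤ M ∧
      Plc n gam y r r2 r' r'' a M i j ∧
    ∀ e : ℝ, 0 < e → ∃ (κ : ℝ) (z₀ : ℕ), 0 < κ ∧ κ ≤ 1 ∧
    ∀ (J a₀ w₀ z : ℕ) (D : NDat2) (q : D.Ω → ℝ) (ϖ : ℝ), z₀ ≤ z → ϖ ≤ 1 →
      D.Ok2 n K J a₀ w₀ z M lam gam κ C₁ q → D.DMA z M κ q → LLC D n z M CL q →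
      D.TmU J w₀ z κ q → D.NF n z M B gam h C₁ ϖ q →
      ∃ (w : ℕ) (E : D.Ω → Prop) (P : D.Γ × D.Γ → ℕ → PN) (S : Slo D),
        Pb q (fun ω => ¬ E ω) ≤ e ∧
        Hyp D n K K' J a₀ w₀ z M w i j r r2 r' r'' y a (B * U * z) lam gam κ C₁ C q E P S ys gs ∧
        Geo D n K' J w₀ z i j r r2 r' r'' gam C₀ (exp (C₀ * z) / 2 ^ (y * z)) q E P S ∧
        (∀ ω, E ω → 0 < q ω ∧ GoodS D n K' w₀ z M C₀ ω ∧
          FrP D n K' z i j r C₀ (P (bb D i j r ω)) ω) ∧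
        Dep D n J w₀ z M i j r C₀ q E P ∧
        Ent5 D J w z i j r (B * U * z) C P S ys gs q n₀ B B' h (io * (B * U * z : ℕ)) ∧
        (qh (c := c) (k0 := k0) (k1 := k1) D J w z i j r (B * U * z) C P S ys gs q).TM
          (B * U * z) s η

end Pool.P5
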