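import Pool.Agent.H14.P5.Cell
import Pool.Agent.H98.QW.NfbH

/-!
# P5: the assembly of the cell side
-/

set_option autoImplicit false

namespace Pool.P5

open Finset Real MvPolynomial
open Pool.Agent.H49.Ent Pool.Agent.H32.Dense Pool.STK Pool.STAT Pool.MIC.Frm Pool.MIC7 Pool.FRM
open Pool.GSD
open Pool.BFL (Pb)
open Pool.QC (nfb)
open Pool.P4 (t0 rt pp PthC FraC bb ze zt z0 be cl1 dg dgp Ry cb LLC tq GoodS FrP err exp_mz
  err_mono err_le)

/-- **The assembly of the cell side, with a larger constant.** -/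
theorem cellF_of (hG : GeoStmt) (h0 : H0Stmt) (h2 : H2Stmt) (hy : YFStmt) (hl : LFStmt)
    (hr : RFStmt) (ht : TFStmt) (hn : NFStmt) (hs : HsStmt) (hT : TMStmt) : CellFStmt := by
  intro n K B lam gam C₁ h c k0 k1 ys gs n₀ n1 B1 lam1 g3 C1 hh0 hh1 y2 y1 y1' y3 y3' g1 g2 g3'
    g4 CL F
  have gamn : 0 < gam n := by rw [g3.gn]; norm_num
  obtain ⟨K', C₀, hC₀, HG⟩ := hG n K lam gam C₁ n1 C1 lam1
  obtain ⟨C, hCd⟩ : ∃ C : ℝ, C = max (max C₀ (F K' C₀)) CL := ⟨_, rfl⟩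
  have hCC : C₀ ≤ C := by rw [hCd]; exact (le_max_left _ _).trans (le_max_left _ _)
  have hCF : F K' C₀ ≤ C := by rw [hCd]; exact (le_max_right _ _).trans (le_max_left _ _)
  have hCL : CL ≤ C := by rw [hCd]; exact le_max_right _ _
  have hC : 1 ≤ C := hC₀.trans hCC
  refine ⟨K', C₀, C, hC₀, hCC, hCF, fun η hη => ?_⟩
  obtain ⟨s, hs0, HT⟩ := hT η hη
  refine ⟨s, hs0, fun B' U₀ y₀ io hB' hio => ?_⟩
  obtain ⟨A0, a0, H0⟩ := h0 n K K' c k0 k1 C₁ C
  obtain ⟨A2, a2, H2⟩ := h2 n K K' c k0 k1 C₁ C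
  obtain ⟨Ay, ay, Hy⟩ := hy n K K' c k0 k1 C₁ C
  obtain ⟨Al, al, Hl⟩ := hl n K K' c k0 k1 C₁ C
  obtain ⟨Ar, ar, Hr⟩ := hr n K K' c k0 k1 C₁ C
  obtain ⟨At, at', Ht⟩ := ht n K K' c k0 k1 C₁ C
  obtain ⟨As, as, Hs⟩ := hs n K K' c k0 k1 C₁ C
  obtain ⟨An, an, Hn⟩ := hn n K K' c k0 k1 B C₁ C B1
  obtain ⟨A, hA⟩ : ∃ A : ℝ, A = A0 + A2 + Ay + Al + Ar + At + As + An := ⟨_, rfl⟩
  have hA0 : 0 ≤ A := by rw [hA]; positivity
  have l0 : A0 ≤ A := by rw [hA]; linarith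
  have l2 : A2 ≤ A := by rw [hA]; linarith
  have ly : Ay ≤ A := by rw [hA]; linarith
  have ll : Al ≤ A := by rw [hA]; linarith
  have lr : Ar ≤ A := by rw [hA]; linarith
  have lt : At ≤ A := by rw [hA]; linarith
  have ls : As ≤ A := by rw [hA]; linarith
  have ln : An ≤ A := by rw [hA]; linarith
  have hBr : (1 : ℝ) ≤ B := by exact_mod_cast B1
  have hB0 : (0 : ℝ) < B := by linarith
  have hlog : 0 < Real.log 2 := Real.log_pos (by norm_num)
  obtain ⟨δ₁, hδ₁⟩ : ∃ δ₁ : ℝ, δ₁ = h / (2 * B) * Real.log 2 / (1 + B') := ⟨_, rfl⟩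
  have hδ₁0 : 0 < δ₁ := by rw [hδ₁]; positivity
  obtain ⟨δ, hδ⟩ : ∃ δ : ℝ, δ = min io δ₁ := ⟨_, rfl⟩
  have hδ0 : 0 < δ := by rw [hδ]; exact lt_min hio hδ₁0
  have hδio : δ ≤ io := by rw [hδ]; exact min_le_left _ _
  have hδδ : δ ≤ δ₁ := by rw [hδ]; exact min_le_right _ _
  obtain ⟨U, hU⟩ : ∃ U : ℕ, U = max (max U₀ 1) ⌈4 * A / δ⌉₊ := ⟨_, rfl⟩
  have hU0 : U₀ ≤ U := by rw [hU]; exact (le_max_left _ _).trans (le_max_left _ _)
  have hU1 : 1 ≤ U := by rw [hU]; exact (le_max_right _ _).trans (le_max_left _ _)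
  have hU2 : 4 * A / δ ≤ U := (Nat.le_ceil _).trans (by
    rw [hU]
    exact_mod_cast le_max_right _ _)
  obtain ⟨y, hyd⟩ : ∃ y : ℕ, y = max (max y₀ 1) (B * U + ⌈C / Real.log 2⌉₊) := ⟨_, rfl⟩
  have hy0 : y₀ ≤ y := by rw [hyd]; exact (le_max_left _ _).trans (le_max_left _ _)
  have hy1 : 1 ≤ y := by rw [hyd]; exact (le_max_right _ _).trans (le_max_left _ _)
  have hy2 : B * U + ⌈C / Real.log 2⌉₊ ≤ y := by rw [hyd]; exact le_max_right _ _
  obtain ⟨r, r2, r', r'', hStp⟩ : ∃ r r2 r' r'' : ℕ, Stp n gam y r r2 r' r'' y :=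
    ⟨_, _, _, _, stp_y g3 y⟩
  refine ⟨U, y, r, r2, r', r'', y, r'' + y, r, hU1, hU0, hy0, fun M₀ => ?_⟩
  obtain ⟨m1, hm1⟩ := exists_nat_ge ((U : ℝ) / gam n)
  obtain ⟨M, hM⟩ : ∃ M : ℕ, M = M₀ + (r'' + y + B * U + r'' + r + r + U + m1 + 1 +
    B * U * r) := ⟨_, rfl⟩
  have hPlc : Plc n gam y r r2 r' r'' y M (r'' + y) r := by
    refine ⟨hStp, hy1, by omega, by omega, ?_, le_rfl, ?_⟩
    · rw [hM]
      omega
    · rw [hM]
      omega
  refine ⟨M, by rw [hM]; omega, hPlc, fun e he => ?_⟩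
  obtain ⟨e₂, he₂⟩ : ∃ e₂ : ℝ, e₂ = min e (min (δ / (2 * (A + 1))) (1 / 2)) := ⟨_, rfl⟩
  have he₂0 : 0 < e₂ := by
    rw [he₂]
    exact lt_min he (lt_min (by positivity) (by norm_num))
  obtain ⟨κ₁, z₁, kp1, HG2⟩ := HG y r r2 r' r'' y M e₂ he₂0
  obtain ⟨κ₂, z₂, kp2, HT2⟩ := HT n K K' M c k0 k1 C₁ C
  refine ⟨min (min κ₁ κ₂) 1, max (max z₁ z₂) 1, lt_min (lt_min kp1 kp2) one_pos, min_le_right _ _,
    ?_⟩
  intro J a₀ w₀ z D q ϖ hz hϖ hO hDM hLLC hTm hNF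
  obtain ⟨κ, hκ⟩ : ∃ κ : ℝ, κ = min (min κ₁ κ₂) 1 := ⟨_, rfl⟩
  rw [← hκ] at hO hDM hTm
  have c1 : κ ≤ κ₁ := by rw [hκ]; exact (min_le_left _ _).trans (min_le_left _ _)
  have c2 : κ ≤ κ₂ := by rw [hκ]; exact (min_le_left _ _).trans (min_le_right _ _)
  have c3 : κ ≤ 1 := by rw [hκ]; exact min_le_right _ _
  have c4 : 0 < κ := by rw [hκ]; exact lt_min (lt_min kp1 kp2) one_pos
  have z1 : z₁ ≤ z := (le_max_left _ _).trans ((le_max_left _ _).trans hz)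
  have z2 : z₂ ≤ z := (le_max_right _ _).trans ((le_max_left _ _).trans hz)
  have z3 : 1 ≤ z := (le_max_right _ _).trans hz
  have hTmono : ∀ κ' : ℝ, κ ≤ κ' → D.TmU J w₀ z κ' q := by
    intro κ' h'
    unfold NDat2.TmU at hTm ⊢
    have : κ * z ≤ κ' * z := mul_le_mul_of_nonneg_right h' (Nat.cast_nonneg z)
    linarith
  obtain ⟨E, P, S, hE, hgd, hgeo, hdep⟩ := HG2 J a₀ w₀ z (r'' + y) r D q z1 hPlc
    (hO.mono_κ c1) (hTmono _ c1)
  have hBU1 : 1 ≤ B * U := Nat.one_le_iff_ne_zero.2 (by positivity)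
  have hX1 : z ≤ B * U * z := Nat.le_mul_of_pos_left z hBU1
  have hX2 : U * z ≤ B * U * z := Nat.mul_le_mul_right z (Nat.le_mul_of_pos_left U B1)
  obtain ⟨w, w1, w2, hTM⟩ := HT2 D J a₀ w₀ z (r'' + y) r r (B * U * z) lam gam κ q P S ys gs
    c2 z2 hX1 (Nat.mul_le_mul_right z (by rw [hM]; omega)) (by rw [hM]; omega) le_rfl
    (by rw [hM]; omega) hO hTm
  have hq := hO.isLaw
  have hb0 : 0 ≤ Pb q (fun ω => ¬ E ω) := Pool.MIC.Pb_nonneg hq.nonneg _
  have hb1 : Pb q (fun ω => ¬ E ω) ≤ δ / (2 * (A + 1)) :=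
    hE.trans (by rw [he₂]; exact (min_le_right _ _).trans (min_le_left _ _))
  have hb2 : Pb q (fun ω => ¬ E ω) ≤ 1 / 2 :=
    hE.trans (by rw [he₂]; exact (min_le_right _ _).trans (min_le_right _ _))
  have hyX : exp (C * z) * 2 ^ (B * U * z) ≤ (2 : ℝ) ^ (y * z) := by
    have e1 : exp (C * z) ≤ (2 : ℝ) ^ (⌈C / Real.log 2⌉₊ * z) := by
      have f1 : (2 : ℝ) ^ (⌈C / Real.log 2⌉₊ * z) =
          exp (((⌈C / Real.log 2⌉₊ * z : ℕ) : ℝ) * Real.log 2) := by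
        rw [← Real.rpow_natCast, Real.rpow_def_of_pos (by norm_num)]
        ring_nf
      rw [f1]
      refine Real.exp_le_exp.2 ?_
      have f2 := Nat.le_ceil (C / Real.log 2)
      rw [div_le_iff₀ hlog] at f2
      push_cast
      have := mul_le_mul_of_nonneg_right f2 (Nat.cast_nonneg (α := ℝ) z)
      nlinarith
    calc exp (C * z) * 2 ^ (B * U * z) ≤ (2 : ℝ) ^ (⌈C / Real.log 2⌉₊ * z) * 2 ^ (B * U * z) :=
          mul_le_mul_of_nonneg_right e1 (by positivity)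
      _ = (2 : ℝ) ^ ((B * U + ⌈C / Real.log 2⌉₊) * z) := by
          rw [← pow_add]
          congr 1
          ring
      _ ≤ 2 ^ (y * z) := pow_le_pow_right₀ (by norm_num) (Nat.mul_le_mul_right z hy2)
  have hHyp : Hyp D n K K' J a₀ w₀ z M w (r'' + y) r r r2 r' r'' y y (B * U * z) lam gam κ C₁ C
      q E P S ys gs := by
    refine
      { ok := hO
        dma := hDM
        llc := hLLC.mono hCL
        tmu := hTm
        n1 := n1
        C1 := C1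
        Cg := hC
        κ0 := c4.le
        z1 := z3
        lam1 := lam1
        plc := hPlc
        w1 := w1
        w2 := w2
        pE := ?_
        geo := geo_le hgeo hCC (by positivity)
          (div_le_div_of_nonneg_right (exp_mz hCC z) (by positivity))
        gd := fun ω hω => ⟨(hgd ω hω).1, (hgd ω hω).2.1.mono hCC, (hgd ω hω).2.2.mono hCC⟩
        dep := dep_le hdep hCC
        yX := hyX
        Xz := ⟨B * U, rfl, by rw [hM]; omega⟩
        Xr := fun x hx => by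
          have e1 : B * U = x := Nat.eq_of_mul_eq_mul_right (by omega) hx
          rw [← e1, hM]
          omega
        ys_in := y2
        ys0 := y1
        ys1 := y1'
        ys_on0 := y3
        ys_on1 := y3'
        gs_gr := g1
        gs_in := g2
        gs_on := g3' }
    have := Pool.MIC.Pb_not hq.sum_one E
    linarith
  have herr : ∀ A' : ℝ, A' ≤ A →
      err A' κ z (B * U * z) (Pb q (fun ω => ¬ E ω)) ≤ δ * (B * U * z : ℕ) := fun A' hA' =>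
    (err_mono hA' c4.le hb0).trans (err_le hA0 hδ0 c3 hU2 hX2 hb1)
  have hX0 : (0 : ℝ) ≤ ((B * U * z : ℕ) : ℝ) := Nat.cast_nonneg _
  have hio' : ∀ A' : ℝ, A' ≤ A →
      err A' κ z (B * U * z) (Pb q (fun ω => ¬ E ω)) ≤ io * (B * U * z : ℕ) := fun A' hA' =>
    (herr A' hA').trans (mul_le_mul_of_nonneg_right hδio hX0)
  refine ⟨w, E, P, S, hE.trans (by rw [he₂]; exact min_le_left _ _), ?_, hgeo, hgd, hdep, ?_, hTM⟩
  · rw [← hκ]
    exact hHyp
  have q0 := H0 D J a₀ w₀ z M w (r'' + y) r r r2 r' r'' y y (B * U * z) lam gam κ q E P S ys gs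
    hHyp
  have q2 := H2 D J a₀ w₀ z M w (r'' + y) r r r2 r' r'' y y (B * U * z) lam gam κ q E P S ys gs
    hHyp
  have qy := Hy D J a₀ w₀ z M w (r'' + y) r r r2 r' r'' y y (B * U * z) lam gam κ q E P S ys gs
    hHyp
  have ql := Hl D J a₀ w₀ z M w (r'' + y) r r r2 r' r'' y y (B * U * z) lam gam κ q E P S ys gs
    hHyp
  have qr := Hr D J a₀ w₀ z M w (r'' + y) r r r2 r' r'' y y (B * U * z) lam gam κ q E P S ys gs
    hHyp
  have qt := Ht D J a₀ w₀ z M w (r'' + y) r r r2 r' r'' y y (B * U * z) lam gam κ q E P S ys gs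
    hHyp
  have qs := Hs D J a₀ w₀ z M w (r'' + y) r r r2 r' r'' y y (B * U * z) lam gam κ q E P S ys gs
    hHyp n₀ g4
  have hMj : (U : ℝ) ≤ gam n * (M - r) := by
    have e1 : (m1 : ℝ) ≤ M - r := by
      rw [hM]
      push_cast
      have : (0 : ℝ) ≤ M₀ + (r'' + y + B * U + r'' + r + U + 1 + B * U * r) := by positivity
      linarith
    rw [div_le_iff₀ gamn] at hm1
    have := mul_le_mul_of_nonneg_left e1 gamn.le
    linarith
  have qn := Hn D J a₀ w₀ z M w (r'' + y) r r r2 r' r'' y y U lam gam κ h ϖ q E P S ys gs n₀ hHyp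
    hNF hh0 hh1 hϖ g4 (by rw [hM]; omega) hMj
  have qb := Pool.QC98.nfb_of_hs hq (nuv D J w z (r'' + y) r r (B * U * z) C P gs)
    (fun ω => (vv D J w z (r'' + y) r r (B * U * z) C P ys gs ω,
      (tv (k0 := k0) (k1 := k1) D J w z (r'' + y) r r (B * U * z) C S ys gs ω,
        cb D J w (r'' + y) r r ω))) n₀ (by omega : 0 < B') qs
  have hXl := hX0
  have e1 := herr _ ln
  have e2 := herr _ ls
  have hB'0 : (0 : ℝ) ≤ B' := Nat.cast_nonneg _
  have e3 := mul_le_mul_of_nonneg_left e2 hB'0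
  have e4 : (1 + (B' : ℝ)) * δ ≤ h / (2 * B) * Real.log 2 := by
    have := mul_le_mul_of_nonneg_left hδδ (by positivity : (0 : ℝ) ≤ 1 + B')
    rw [hδ₁] at this
    rwa [mul_div_assoc', mul_div_cancel_left₀ _ (by positivity)] at this
  have e5 : (h / B - h / (2 * B)) = h / (2 * B) := by
    field_simp
    ring
  have e6 := mul_le_mul_of_nonneg_right e4 hX0
  refine
    { h0 := q0.trans (add_le_add le_rfl (hio' _ l0))
      h2 := q2.trans (add_le_add le_rfl (hio' _ l2))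
      yf := qy.trans (add_le_add le_rfl (hio' _ ly))
      lf := ql.trans (add_le_add le_rfl (hio' _ ll))
      rf := qr.trans (add_le_add le_rfl (hio' _ lr))
      tf := qt.trans (add_le_add le_rfl (hio' _ lt))
      nf := qn.trans (add_le_add le_rfl (hio' _ ln))
      hs := fun x hx => (sub_le_sub_left (hio' _ ls) _).trans (qs x hx)
      nb := ?_ }
  refine qb.trans ?_
  have e7 : (1 - h / (2 * B)) * ((B * U * z : ℕ) : ℝ) * Real.log 2 =
      (1 - h / B) * ((B * U * z : ℕ) : ℝ) * Real.log 2 +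
        h / (2 * B) * ((B * U * z : ℕ) : ℝ) * Real.log 2 := by
    linear_combination ((B * U * z : ℕ) : ℝ) * Real.log 2 * e5
  rw [e7]
  have e8 : (1 + (B' : ℝ)) * δ * ((B * U * z : ℕ) : ℝ) =
      δ * ((B * U * z : ℕ) : ℝ) + B' * (δ * ((B * U * z : ℕ) : ℝ)) := by ring
  rw [e8] at e6
  linarith

end Pool.P5
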