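import Pool.Agent.H14.P4.Dep2

/-!
# Deeper contexts, every time of the window

`DepT`: the points of the line at every time of the window of the length `2 ^ (-(w₀ + j z))`, over a
closed frame, are known from a deeper context. `depT_stmt : DepTStmt`, no condition on the steps.
-/

set_option autoImplicit false

namespace Pool.P5

open Finset Real MvPolynomial
open Pool.Agent.H49.Ent Pool.Agent.H32.Dense Pool.STK Pool.STAT Pool.MIC.Frm Pool.MIC7 Pool.FRM
open Pool.GSD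
open Pool.P4
open Pool.BFL (Pb)

/-- **Deeper contexts** `(i', j)`, `i ≤ i' < M`, in the units of `(i, j)`: they know the line to the
depth `i' - i`, and the coordinates over the frame and over their visible labels are equivalent. -/
structure DepT (D : NDat2) (n w₀ z M i j r : ℕ) (C : ℝ) (q : D.Ω → ℝ) (E : D.Ω → Prop)
    (P : D.Γ × D.Γ → ℕ → PN) : Prop where
  ctx : ∀ i', i ≤ i' → i' < M → ∀ ω ω', 0 < q ω → 0 < q ω' → E ω → E ω' →
    bb D i j r ω = bb D i j r ω' → D.c i' j ω = D.c i' j ω' → ∀ t : ℝ,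
    |t - D.X ω 0| ≤ 1 / 2 ^ (w₀ + j * z) → |t - D.X ω' 0| ≤ 1 / 2 ^ (w₀ + j * z) →
    ∀ l, 1 ≤ l → l ≤ n →
    |zt D i j r P t ω l - zt D i j r P t ω' l| ≤ exp (C * z) / 2 ^ ((i' - i) * z)
  toV : ∀ i', i ≤ i' → i' < M → ∀ ω ω', 0 < q ω → 0 < q ω' → E ω → E ω' →
    bb D i j r ω = bb D i j r ω' → D.c i' j ω = D.c i' j ω' → D.T ω = D.T ω' → ∀ l, 1 ≤ l →
    l ≤ n → ∀ δ : ℝ, 0 ≤ δ →
    (∀ k, 1 ≤ k → k ≤ l → |ze D i j r P ω k - ze D i j r P ω' k| ≤ δ) →
    |2 ^ D.g i j l * D.sh i' j ω l - 2 ^ D.g i j l * D.sh i' j ω' l| ≤ exp (C * z) * δ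
  ofV : ∀ i', i ≤ i' → i' < M → ∀ ω ω', 0 < q ω → 0 < q ω' → E ω → E ω' →
    bb D i j r ω = bb D i j r ω' → D.c i' j ω = D.c i' j ω' → D.T ω = D.T ω' → ∀ l, 1 ≤ l →
    l ≤ n → ∀ δ : ℝ, 0 ≤ δ →
    (∀ k, 1 ≤ k → k ≤ l →
      |2 ^ D.g i j k * D.sh i' j ω k - 2 ^ D.g i j k * D.sh i' j ω' k| ≤ δ) →
    |ze D i j r P ω l - ze D i j r P ω' l| ≤ exp (C * z) * δ

/-- **(DEPT)** Deeper contexts, deterministic. -/
def DepTStmt : Prop :=
  ∀ (n K K' : ℕ) (lam gam : ℕ → ℝ) (C₁ C : ℝ), 1 ≤ n → 1 ≤ C₁ → 0 ≤ C →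
    (∀ l, 1 ≤ l → l ≤ n → lam l = 1) → ∃ C' : ℝ, 1 ≤ C' ∧
    ∀ (M J a₀ w₀ z i j r : ℕ) (D : NDat2) (q : D.Ω → ℝ) (κ : ℝ),
      1 ≤ z → i < M → j < M → D.Ok2 n K J a₀ w₀ z M lam gam κ C₁ q →
      ∀ (P : D.Γ × D.Γ → ℕ → PN) (E : D.Ω → Prop),
      (∀ ω, E ω → 0 < q ω ∧ GoodS D n K' w₀ z M C ω ∧ FrP D n K' z i j r C (P (bb D i j r ω)) ω) →
      DepT D n w₀ z M i j r C' q E P

/-- **Deeper contexts.** -/
theorem depT_stmt : DepTStmt := by
  intro n K K' lam gam C₁ C hn hC₁ hC hlam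
  obtain ⟨K₂, hK₂⟩ : ∃ K₂ : ℕ, K₂ = max K K' := ⟨_, rfl⟩
  have hKK : K ≤ K₂ := by rw [hK₂]; exact le_max_left _ _
  have hKK' : K' ≤ K₂ := by rw [hK₂]; exact le_max_right _ _
  obtain ⟨A₁, D₁, hA₁, hbox⟩ := near_box n K₂ (n + 1) le_rfl
  obtain ⟨A₂, D₂, hA₂, hchg⟩ := chg n K₂
  obtain ⟨A₃, hA₃, hev⟩ := near_of_ev n K₂
  obtain ⟨A₄, hA₄, hfz⟩ := near_fz n K₂
  -- the box
  obtain ⟨r₁, hr₁⟩ : ∃ r₁ : ℝ, r₁ = A₁ + D₁ * (1 + C) := ⟨_, rfl⟩
  have hr₁0 : 1 ≤ r₁ := by
    have h1 : (0 : ℝ) ≤ D₁ * (1 + C) := by positivity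
    rw [hr₁]
    linarith
  obtain ⟨r₂, hr₂⟩ : ∃ r₂ : ℝ, r₂ = r₁ + 2 * C₁ := ⟨_, rfl⟩
  have hr₂0 : 1 ≤ r₂ := by rw [hr₂]; linarith
  -- the change of the chart between `P` and `Q` at `(i, j)`
  obtain ⟨c₁, hc₁⟩ : ∃ c₁ : ℝ, c₁ = A₂ + D₂ * (r₂ + C) := ⟨_, rfl⟩
  have hc₁0 : 1 ≤ c₁ := by
    have h1 : (0 : ℝ) ≤ D₂ * (r₂ + C) := by positivity
    rw [hc₁]
    linarith
  -- the change of the chart between `Q` and the visible labels at `(i', j)`
  obtain ⟨s₁, hs₁⟩ : ∃ s₁ : ℝ, s₁ = A₃ + A₄ + C := ⟨_, rfl⟩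
  have hs₁0 : 1 ≤ s₁ := by rw [hs₁]; linarith
  obtain ⟨c₂, hc₂⟩ : ∃ c₂ : ℝ, c₂ = A₂ + D₂ * (r₁ + s₁) := ⟨_, rfl⟩
  have hc₂0 : 1 ≤ c₂ := by
    have h1 : (0 : ℝ) ≤ D₂ * (r₁ + s₁) := by positivity
    rw [hc₂]
    linarith
  refine ⟨c₁ + c₂ + 4 * C₁ + r₂ + 1, by linarith, ?_⟩
  intro M J a₀ w₀ z i j r D q κ hz hiM hjM hO P E hE
  have hzr : (1 : ℝ) ≤ z := by exact_mod_cast hz
  have hq := hO.isLaw
  -- degrees
  have dΦ : ∀ i j ω, ∀ l ≤ n, (D.Φ i j ω l).totalDegree ≤ K₂ := fun i j ω l _ =>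
    (hO.P_deg i j _ l).trans hKK
  have tΦ : ∀ i j ω, TriN (D.Φ i j ω) := fun i j ω => hO.P_tri i j _
  -- two points over `Q` and `P` in the box of `Φ (i', j)`
  have core : ∀ i', i ≤ i' → i' < M → ∀ ω, E ω → ∀ x x' : ℕ → ℝ, x 0 = x' 0 →
      (∀ l ≤ n, |nat (D.g i' j) (D.Φ i' j ω) x l| ≤ exp z) →
      (∀ l ≤ n, |nat (D.g i' j) (D.Φ i' j ω) x' l| ≤ exp z) →
      ∀ Q : ℕ → PN, TriN Q → (∀ l, (Q l).totalDegree ≤ K') →
      (∀ i < M, ∀ j < M, ∀ l ≤ n,
        nrm (D.g i j) (1 / 2) (chr Q (D.Φ i j ω l - Q l)) ≤ exp (C * z) / 2 ^ D.g i j l) →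
      (∀ k ≤ n, |nat (D.g i' j) Q x k| ≤ exp (r₁ * z) ∧ |nat (D.g i' j) Q x' k| ≤ exp (r₁ * z)) ∧
      (∀ k ≤ n, |nat (D.g i j) Q x k| ≤ exp (r₂ * z) ∧ |nat (D.g i j) Q x' k| ≤ exp (r₂ * z)) := by
    intro i' hi hi' ω hω x x' hx0 hx hx' Q hQ dQ nQ
    have b1 : ∀ y : ℕ → ℝ, (∀ l ≤ n, |nat (D.g i' j) (D.Φ i' j ω) y l| ≤ exp z) →
        ∀ k ≤ n, |nat (D.g i' j) Q y k| ≤ exp (r₁ * z) := by
      intro y hy k hk
      have := hbox (D.g i' j) Q (D.Φ i' j ω) (exp (C * z)) (exp z) hQ (tΦ _ _ _)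
        (fun i _ => (dQ i).trans hKK') (dΦ _ _ _) (nQ i' hi' j hjM)
        (Real.one_le_exp (by positivity)) (Real.one_le_exp (by positivity)) y
        (fun k hk => hy k (by omega)) k (by omega)
      refine this.trans ?_
      have e1 : exp (z : ℝ) * exp (C * z) = exp ((1 + C) * z) := by
        rw [← Real.exp_add]
        congr 1
        ring
      rw [e1, hr₁]
      exact abs_exp hA₁ D₁ hzr
    have b2 : ∀ y : ℕ → ℝ, (∀ l ≤ n, |nat (D.g i' j) (D.Φ i' j ω) y l| ≤ exp z) →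
        ∀ k ≤ n, |nat (D.g i j) Q y k| ≤ exp (r₂ * z) := by
      intro y hy k hk
      have h1 := b1 y hy k hk
      rcases Nat.eq_zero_or_pos k with k0 | k0
      · subst k0
        have e1 : nat (D.g i j) Q y 0 = nat (D.g i' j) Q y 0 := by
          unfold nat
          rw [hO.g_zero, hO.g_zero]
        rw [e1]
        refine h1.trans (Real.exp_le_exp.2 (mul_le_mul_of_nonneg_right ?_ (by linarith)))
        rw [hr₂]
        linarith
      · have h2 := (unit_ratio hO (by linarith) hlam hi hi'.le hjM.le k0 hk).2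
        have h3 : (2 : ℝ) ^ D.g i j k ≤ exp (2 * C₁ * z) * 2 ^ D.g i' j k := by
          refine le_trans ?_ h2
          exact pow_le_pow_right₀ one_le_two (by omega)
        have h4 : (2 : ℝ) ^ D.g i' j k * |nat (D.g i j) Q y k| =
            2 ^ D.g i j k * |nat (D.g i' j) Q y k| := by
          have h1 : (0 : ℝ) < 2 ^ D.g i j k := by positivity
          have h2 : (0 : ℝ) < 2 ^ D.g i' j k := by positivity
          have e1 : (2 : ℝ) ^ D.g i' j k * |nat (D.g i j) Q y k| =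
              |2 ^ D.g i' j k * nat (D.g i j) Q y k| := by rw [abs_mul, abs_of_pos h2]
          have e2 : (2 : ℝ) ^ D.g i j k * |nat (D.g i' j) Q y k| =
              |2 ^ D.g i j k * nat (D.g i' j) Q y k| := by rw [abs_mul, abs_of_pos h1]
          rw [e1, e2, nat_scale]
        have h5 : (0 : ℝ) < 2 ^ D.g i' j k := by positivity
        have h6 : (2 : ℝ) ^ D.g i' j k * |nat (D.g i j) Q y k| ≤
            2 ^ D.g i' j k * exp (r₂ * z) := by
          rw [h4]
          calc (2 : ℝ) ^ D.g i j k * |nat (D.g i' j) Q y k|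
              ≤ (exp (2 * C₁ * z) * 2 ^ D.g i' j k) * exp (r₁ * z) :=
                mul_le_mul h3 h1 (abs_nonneg _) (by positivity)
            _ = 2 ^ D.g i' j k * (exp (2 * C₁ * z) * exp (r₁ * z)) := by ring
            _ = 2 ^ D.g i' j k * exp (r₂ * z) := by
                rw [← Real.exp_add, hr₂]
                congr 2
                ring
        exact le_of_mul_le_mul_left h6 h5
    exact ⟨fun k hk => ⟨b1 x hx k hk, b1 x' hx' k hk⟩, fun k hk => ⟨b2 x hx k hk, b2 x' hx' k hk⟩⟩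
  -- from `A` to `B` at `(i, j)`
  have tr1 : ∀ (A B Φ : ℕ → PN) (x x' : ℕ → ℝ) (ε : ℝ) (l : ℕ), TriN A → TriN B → TriN Φ →
      (∀ i ≤ n, (A i).totalDegree ≤ K₂) → (∀ i ≤ n, (B i).totalDegree ≤ K₂) →
      (∀ i ≤ n, (Φ i).totalDegree ≤ K₂) → NearP n (D.g i j) A Φ (exp (C * z)) →
      NearP n (D.g i j) B Φ (exp (C * z)) → l ≤ n → 0 ≤ ε →
      (∀ k < l, |nat (D.g i j) A x k| ≤ exp (r₂ * z)) →
      (∀ k < l, |nat (D.g i j) A x' k| ≤ exp (r₂ * z)) →
      (∀ k ≤ l, |nat (D.g i j) A x k - nat (D.g i j) A x' k| ≤ ε) →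
      |nat (D.g i j) B x l - nat (D.g i j) B x' l| ≤ exp (c₁ * z) * ε := by
    intro A B Φ x x' ε l hA hB hΦ dA dB dΦ nA nB hl hε hx hx' hd
    have := hchg (D.g i j) A B Φ (exp (C * z)) (exp (r₂ * z)) ε x x' l hA hB hΦ dA dB dΦ
      (Real.one_le_exp (by positivity)) (Real.one_le_exp (by positivity)) hε nA nB hl hx hx' hd
    refine this.trans (mul_le_mul_of_nonneg_right ?_ hε)
    have e1 : exp (r₂ * z) * exp (C * z) = exp ((r₂ + C) * z) := by
      rw [← Real.exp_add]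
      congr 1
      ring
    rw [e1, hc₁]
    exact abs_exp hA₂ D₂ hzr
  -- the labels of two samples
  have same : ∀ ω ω', bb D i j r ω = bb D i j r ω' → D.Φ i j ω' = D.Φ i j ω := by
    intro ω ω' h
    unfold P4.bb at h
    unfold NDat2.Φ
    have h1 : D.c i j ω = D.c i j ω' := (Prod.ext_iff.1 h).1
    rw [h1]
  -- the box over the frame
  have boxP : ∀ ω, E ω → ∀ x : ℕ → ℝ, (∀ l ≤ n, |nat (D.g i j) (D.Φ i j ω) x l| ≤ exp z) →
      ∀ k ≤ n, |nat (D.g i j) (P (bb D i j r ω)) x k| ≤ exp (r₂ * z) := by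
    intro ω hω x hx k hk
    obtain ⟨hω0, hg, hf⟩ := hE ω hω
    have := hbox (D.g i j) (P (bb D i j r ω)) (D.Φ i j ω) (exp (C * z)) (exp z) hf.tri (tΦ _ _ _)
      (fun i _ => (hf.deg i).trans hKK') (dΦ _ _ _) (fun l hl => (hf.near i le_rfl l hl).1)
      (Real.one_le_exp (by positivity)) (Real.one_le_exp (by positivity)) x
      (fun k hk => hx k (by omega)) k (by omega)
    refine this.trans ?_
    have e1 : exp (z : ℝ) * exp (C * z) = exp ((1 + C) * z) := by
      rw [← Real.exp_add]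
      congr 1
      ring
    rw [e1]
    refine (abs_exp hA₁ D₁ hzr).trans ?_
    refine Real.exp_le_exp.2 (mul_le_mul_of_nonneg_right ?_ (by linarith))
    rw [hr₂, hr₁]
    linarith
  -- the own points
  have own : ∀ ω, 0 < q ω → ∀ i' ≤ M, ∀ l ≤ n, |nat (D.g i' j) (D.Φ i' j ω) (D.X ω) l| ≤
      exp z := by
    intro ω hω i' hi' l hl
    have h1 := hO.hgt i' hi' j hjM.le ω hω l hl
    have h2 : (1 : ℝ) ≤ exp z := Real.one_le_exp (by positivity)
    refine le_trans ?_ h2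
    unfold nat
    rw [abs_mul, abs_of_pos (by positivity)]
    rw [le_div_iff₀ (by positivity)] at h1
    unfold NDat2.rh at h1
    linarith
  -- the visible labels
  have vis : ∀ i', i ≤ i' → i' < M → ∀ ω ω', 0 < q ω → 0 < q ω' → E ω → E ω' →
      bb D i j r ω = bb D i j r ω' → D.c i' j ω = D.c i' j ω' → D.T ω = D.T ω' →
      ∀ Q : ℕ → PN, TriN Q → (∀ l, (Q l).totalDegree ≤ K') →
      (∀ l ≤ n, eval (D.X ω) (Q l) = D.X ω l) →
      (∀ i < M, ∀ j < M, ∀ l ≤ n,
        nrm (D.g i j) (1 / 2) (chr Q (D.Φ i j ω l - Q l)) ≤ exp (C * z) / 2 ^ D.g i j l) →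
      (∀ k, 1 ≤ k → k ≤ n → ∀ x : ℕ → ℝ, x 0 = D.X ω 0 →
        nat (D.g i' j) (fz (D.X ω 0) Q) x k = nat (D.g i' j) Q x k) ∧
      NearP n (D.g i' j) (fz (D.X ω 0) Q) (fz (D.X ω 0) (D.Φ i' j ω)) (exp (s₁ * z)) ∧
      NearP n (D.g i' j) (fr D (i', j) ω) (fz (D.X ω 0) (D.Φ i' j ω)) (exp (s₁ * z)) ∧
      (∀ k, 1 ≤ k → k ≤ n → nat (D.g i' j) (fr D (i', j) ω) (D.X ω) k =
        2 ^ D.g i' j k * D.sh i' j ω k) ∧
      (∀ k, 1 ≤ k → k ≤ n → nat (D.g i' j) (fr D (i', j) ω) (D.X ω') k =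
        2 ^ D.g i' j k * D.sh i' j ω' k) := by
    intro i' hi hi' ω ω' hω hω' Eω Eω' hb hc hT Q hQ dQ qQ nQ
    have hX : D.X ω 0 = D.X ω' 0 := by rw [hO.X_zero, hO.X_zero, hT]
    have hΨ : D.Ψ i' j ω = D.Ψ i' j ω' := by
      unfold NDat2.Ψ
      rw [hO.s_c i' hi'.le j hjM.le ω ω' hω hω' (Prod.ext hc hT)]
    refine ⟨?_, ?_, ?_, ?_, ?_⟩
    · intro k hk _ x hx
      exact nat_fz' _ _ hx hk
    · have h0 : |D.X ω 0 - eval (fun _ => 0) (Q 0)| ≤ 1 / 2 ^ D.g i' j 0 := by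
        have e1 : eval (fun _ => (0 : ℝ)) (Q 0) = eval (D.X ω) (Q 0) :=
          Pool.SYS35.eval_congr (hQ 0) fun i hi => absurd hi (Nat.not_lt_zero _)
        rw [e1, qQ 0 (Nat.zero_le _), sub_self, abs_zero]
        positivity
      have := hfz (D.g i' j) Q (D.Φ i' j ω) (exp (C * z)) 1 (D.X ω 0) hQ (tΦ _ _ _)
        (fun i _ => (dQ i).trans hKK') (dΦ _ _ _) le_rfl h0 (nQ i' hi' j hjM)
        (Real.exp_pos _).le
      refine this.mono ?_
      rw [one_pow, one_mul]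
      have h1 : A₄ ≤ exp (A₄ * z) := by
        have := Real.add_one_le_exp (A₄ * z)
        nlinarith
      calc A₄ * exp (C * z) ≤ exp (A₄ * z) * exp (C * z) :=
            mul_le_mul_of_nonneg_right h1 (by positivity)
        _ = exp ((A₄ + C) * z) := by
            rw [← Real.exp_add]
            congr 1
            ring
        _ ≤ exp (s₁ * z) := Real.exp_le_exp.2 (mul_le_mul_of_nonneg_right (by
            rw [hs₁]; linarith) (by linarith))
    · have h1 := hev (D.g i' j) (fr D (i', j) ω) (fz (D.X ω 0) (D.Φ i' j ω)) 1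
        (tri_fz (hO.G_tri _ _ _) _) (tri_fz (tΦ _ _ _) _)
        (fun k _ => (deg_fz (hO.G_deg _ _ _ _) _).trans hKK)
        (fun k _ => (deg_fz (hO.P_deg _ _ _ _) _).trans hKK)
        (fun l hl b hb => agr_fz hO hi'.le hjM.le hω hl fun k hk => hb k (by omega))
      refine h1.mono ?_
      rw [mul_one]
      have h1 : A₃ ≤ exp (A₃ * z) := by
        have := Real.add_one_le_exp (A₃ * z)
        nlinarith
      refine h1.trans (Real.exp_le_exp.2 (mul_le_mul_of_nonneg_right ?_ (by linarith)))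
      rw [hs₁]
      linarith
    · intro k hk _
      unfold fr
      rw [nat_fz' _ _ rfl hk]
      rfl
    · intro k hk _
      unfold fr
      rw [nat_fz' _ _ hX.symm hk, hΨ]
      rfl
  -- from `A` to `B` at `(i', j)`, at the exact time
  have tr2 : ∀ i', ∀ (A B Φ : ℕ → PN) (x x' : ℕ → ℝ) (ε : ℝ) (l : ℕ), TriN A → TriN B →
      TriN Φ → (∀ i ≤ n, (A i).totalDegree ≤ K₂) → (∀ i ≤ n, (B i).totalDegree ≤ K₂) →
      (∀ i ≤ n, (Φ i).totalDegree ≤ K₂) → NearP n (D.g i' j) A Φ (exp (s₁ * z)) →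
      NearP n (D.g i' j) B Φ (exp (s₁ * z)) → l ≤ n → 0 ≤ ε →
      (∀ k < l, |nat (D.g i' j) A x k| ≤ exp (r₁ * z)) →
      (∀ k < l, |nat (D.g i' j) A x' k| ≤ exp (r₁ * z)) →
      (∀ k ≤ l, |nat (D.g i' j) A x k - nat (D.g i' j) A x' k| ≤ ε) →
      |nat (D.g i' j) B x l - nat (D.g i' j) B x' l| ≤ exp (c₂ * z) * ε := by
    intro i' A B Φ x x' ε l hA hB hΦ dA dB dΦ nA nB hl hε hx hx' hd
    have := hchg (D.g i' j) A B Φ (exp (s₁ * z)) (exp (r₁ * z)) ε x x' l hA hB hΦ dA dB dΦ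
      (Real.one_le_exp (by positivity)) (Real.one_le_exp (by positivity)) hε nA nB hl hx hx' hd
    refine this.trans (mul_le_mul_of_nonneg_right ?_ hε)
    have e1 : exp (r₁ * z) * exp (s₁ * z) = exp ((r₁ + s₁) * z) := by
      rw [← Real.exp_add]
      congr 1
      ring
    rw [e1, hc₂]
    exact abs_exp hA₂ D₂ hzr
  refine ⟨?_, ?_, ?_⟩
  · -- the context
    intro i' hi hi' ω ω' hω hω' Eω Eω' hb hc t₁ ht₁ ht₁' l hl1 hln
    obtain ⟨-, hg, hf⟩ := hE ω Eω
    obtain ⟨-, hg', hf'⟩ := hE ω' Eω'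
    obtain ⟨Q, hQ, dQ, qQ, nQ⟩ := hg.fc
    have hP := same ω ω' hb
    have hΦ' : D.Φ i' j ω' = D.Φ i' j ω := by
      unfold NDat2.Φ
      rw [hc]
    have pt : ∀ t : ℝ, |t - D.X ω 0| ≤ 1 / 2 ^ (w₀ + j * z) → |t - D.X ω' 0| ≤
        1 / 2 ^ (w₀ + j * z) →
        |zt D i j r P t ω l - zt D i j r P t ω' l| ≤
          exp ((c₁ + r₂ + 1 + 2 * C₁) * z) / 2 ^ ((i' - i) * z) := by
      intro t ht ht'
      have hx : ∀ l ≤ n, |nat (D.g i' j) (D.Φ i' j ω) (pp D (D.ln ω) t) l| ≤ exp z := by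
        intro l hl
        have := hg.pc i' hi'.le j hjM.le l hl t ht
        rwa [one_mul] at this
      have hx' : ∀ l ≤ n, |nat (D.g i' j) (D.Φ i' j ω) (pp D (D.ln ω') t) l| ≤ exp z := by
        intro l hl
        have := hg'.pc i' hi'.le j hjM.le l hl t ht'
        rwa [one_mul, hΦ'] at this
      have h00 : pp D (D.ln ω) t 0 = pp D (D.ln ω') t 0 := by
        unfold pp
        rw [if_pos rfl, if_pos rfl]
      obtain ⟨b1, b2⟩ := core i' hi hi' ω Eω (pp D (D.ln ω) t) (pp D (D.ln ω') t) h00 hx hx' Q hQ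
        dQ nQ
      -- the difference over `Q`
      have hd : ∀ k ≤ n, |nat (D.g i j) Q (pp D (D.ln ω) t) k -
          nat (D.g i j) Q (pp D (D.ln ω') t) k| ≤
          exp ((r₁ + 1 + 2 * C₁) * z) / 2 ^ ((i' - i) * z) := by
        intro k hk
        rcases Nat.eq_zero_or_pos k with k0 | k0
        · subst k0
          have e0 : eval (pp D (D.ln ω) t) (Q 0) = eval (pp D (D.ln ω') t) (Q 0) :=
            Pool.SYS35.eval_congr (hQ 0) fun i hi => absurd hi (Nat.not_lt_zero _)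
          unfold nat
          rw [h00, e0, sub_self, abs_zero]
          positivity
        · have h2 := (unit_ratio hO (by linarith) hlam hi hi'.le hjM.le k0 hk).2
          have h3 := abs_nat_scale (D.g i j) (D.g i' j) Q (pp D (D.ln ω) t) (pp D (D.ln ω') t) k
          have h4 : |nat (D.g i' j) Q (pp D (D.ln ω) t) k -
              nat (D.g i' j) Q (pp D (D.ln ω') t) k| ≤ exp ((r₁ + 1) * z) := by
            refine (abs_sub _ _).trans ?_
            have h5 := b1 k hk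
            have h6 : 2 * exp (r₁ * z) ≤ exp ((r₁ + 1) * z) := by
              rw [add_mul, Real.exp_add, one_mul, mul_comm]
              have : (2 : ℝ) ≤ exp z := by
                have := Real.add_one_le_exp (z : ℝ)
                linarith
              exact mul_le_mul_of_nonneg_left this (by positivity)
            linarith [h5.1, h5.2]
          rw [le_div_iff₀ (by positivity)]
          have h5 : (0 : ℝ) < 2 ^ D.g i' j k := by positivity
          refine le_of_mul_le_mul_left ?_ h5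
          calc (2 : ℝ) ^ D.g i' j k * (|nat (D.g i j) Q (pp D (D.ln ω) t) k -
                nat (D.g i j) Q (pp D (D.ln ω') t) k| * 2 ^ ((i' - i) * z))
              = 2 ^ ((i' - i) * z + D.g i j k) * |nat (D.g i' j) Q (pp D (D.ln ω) t) k -
                nat (D.g i' j) Q (pp D (D.ln ω') t) k| := by
                rw [← mul_assoc, h3, pow_add]
                ring
            _ ≤ (exp (2 * C₁ * z) * 2 ^ D.g i' j k) * exp ((r₁ + 1) * z) :=
                mul_le_mul h2 h4 (abs_nonneg _) (by positivity)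
            _ = 2 ^ D.g i' j k * (exp (2 * C₁ * z) * exp ((r₁ + 1) * z)) := by ring
            _ = 2 ^ D.g i' j k * exp ((r₁ + 1 + 2 * C₁) * z) := by
                rw [← Real.exp_add]
                congr 2
                ring
      have key := tr1 Q (P (bb D i j r ω)) (D.Φ i j ω) (pp D (D.ln ω) t) (pp D (D.ln ω') t)
        (exp ((r₁ + 1 + 2 * C₁) * z) / 2 ^ ((i' - i) * z)) l hQ hf.tri (tΦ _ _ _)
        (fun i _ => (dQ i).trans hKK') (fun i _ => (hf.deg i).trans hKK') (dΦ _ _ _)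
        (nQ i hiM j hjM) (fun l hl => (hf.near i le_rfl l hl).1) hln (by positivity)
        (fun k hk => (b2 k (by omega)).1) (fun k hk => (b2 k (by omega)).2)
        (fun k hk => hd k (by omega))
      have e1 : zt D i j r P t ω l = nat (D.g i j) (P (bb D i j r ω)) (pp D (D.ln ω) t) l := rfl
      have e2 : zt D i j r P t ω' l = nat (D.g i j) (P (bb D i j r ω)) (pp D (D.ln ω') t) l := by
        rw [hb]
        rfl
      rw [e1, e2]
      refine key.trans ?_
      rw [← mul_div_assoc]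
      refine div_le_div_of_nonneg_right ?_ (by positivity)
      rw [← Real.exp_add]
      refine Real.exp_le_exp.2 ?_
      rw [← add_mul]
      refine mul_le_mul_of_nonneg_right ?_ (by linarith)
      rw [hr₂]
      linarith
    refine (pt t₁ ht₁ ht₁').trans (div_le_div_of_nonneg_right ?_ (by positivity))
    exact Real.exp_le_exp.2 (mul_le_mul_of_nonneg_right (by linarith) (by linarith))
  · -- to the visible labels
    intro i' hi hi' ω ω' hω hω' Eω Eω' hb hc hT l hl1 hln δ hδ hd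
    obtain ⟨-, hg, hf⟩ := hE ω Eω
    obtain ⟨Q, hQ, dQ, qQ, nQ⟩ := hg.fc
    have hX : D.X ω 0 = D.X ω' 0 := by rw [hO.X_zero, hO.X_zero, hT]
    have hΦ' : D.Φ i' j ω' = D.Φ i' j ω := by
      unfold NDat2.Φ
      rw [hc]
    obtain ⟨v1, v2, v3, v4, v5⟩ := vis i' hi hi' ω ω' hω hω' Eω Eω' hb hc hT Q hQ dQ qQ nQ
    obtain ⟨b1, b2⟩ := core i' hi hi' ω Eω (D.X ω) (D.X ω') hX (own ω hω i' hi'.le)
      (by rw [← hΦ']; exact own ω' hω' i' hi'.le) Q hQ dQ nQ
    -- over `Q`, units of `(i, j)`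
    have s1 : ∀ k ≤ l, |nat (D.g i j) Q (D.X ω) k - nat (D.g i j) Q (D.X ω') k| ≤
        exp (c₁ * z) * δ := by
      intro k hk
      refine tr1 (P (bb D i j r ω)) Q (D.Φ i j ω) (D.X ω) (D.X ω') δ k hf.tri hQ (tΦ _ _ _)
        (fun i _ => (hf.deg i).trans hKK') (fun i _ => (dQ i).trans hKK') (dΦ _ _ _)
        (fun l hl => (hf.near i le_rfl l hl).1) (nQ i hiM j hjM) (by omega) hδ
        (fun k hk => boxP ω Eω _ (own ω hω i hiM.le) k (by omega))
        (fun k hk => boxP ω Eω _ (by rw [← same ω ω' hb]; exact own ω' hω' i hiM.le) k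
          (by omega)) ?_
      intro k' hk'
      rcases Nat.eq_zero_or_pos k' with k0 | k0
      · subst k0
        have e0 : eval (D.X ω) (P (bb D i j r ω) 0) = eval (D.X ω') (P (bb D i j r ω) 0) :=
          Pool.SYS35.eval_congr (hf.tri 0) fun i hi => absurd hi (Nat.not_lt_zero _)
        unfold nat
        rw [hX, e0, sub_self, abs_zero]
        exact hδ
      · have := hd k' k0 (by omega)
        unfold ze at this
        rwa [← hb] at this
    -- over `Q`, units of `(i', j)`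
    have s2 : ∀ k ≤ l, |nat (D.g i' j) (fz (D.X ω 0) Q) (D.X ω) k -
        nat (D.g i' j) (fz (D.X ω 0) Q) (D.X ω') k| ≤
        exp (2 * C₁ * z) * 2 ^ ((i' - i) * z) * (exp (c₁ * z) * δ) := by
      intro k hk
      rcases Nat.eq_zero_or_pos k with k0 | k0
      · subst k0
        rw [nat_fz_zero, nat_fz_zero, hX, sub_self, abs_zero]
        positivity
      · rw [v1 k k0 (by omega) _ rfl, v1 k k0 (by omega) _ hX.symm]
        have h2 := (unit_ratio hO (by linarith) hlam hi hi'.le hjM.le k0 (by omega : k ≤ n)).1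
        have h3 := abs_nat_scale (D.g i' j) (D.g i j) Q (D.X ω) (D.X ω') k
        have h5 : (0 : ℝ) < 2 ^ D.g i j k := by positivity
        refine le_of_mul_le_mul_left ?_ h5
        rw [h3]
        calc (2 : ℝ) ^ D.g i' j k * |nat (D.g i j) Q (D.X ω) k - nat (D.g i j) Q (D.X ω') k|
            ≤ (exp (2 * C₁ * z) * 2 ^ ((i' - i) * z + D.g i j k)) * (exp (c₁ * z) * δ) :=
              mul_le_mul h2 (s1 k hk) (abs_nonneg _) (by positivity)
          _ = 2 ^ D.g i j k * (exp (2 * C₁ * z) * 2 ^ ((i' - i) * z) * (exp (c₁ * z) * δ)) := by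
              rw [pow_add]
              ring
    have s3 := tr2 i' (fz (D.X ω 0) Q) (fr D (i', j) ω) (fz (D.X ω 0) (D.Φ i' j ω)) (D.X ω)
      (D.X ω') _ l (tri_fz hQ _) (tri_fz (hO.G_tri _ _ _) _) (tri_fz (tΦ _ _ _) _)
      (fun k _ => deg_fz ((dQ k).trans hKK') _)
      (fun k _ => (deg_fz (hO.G_deg _ _ _ _) _).trans hKK)
      (fun k _ => (deg_fz (hO.P_deg _ _ _ _) _).trans hKK) v2 v3 hln (by positivity)
      (fun k hk => by
        rcases Nat.eq_zero_or_pos k with k0 | k0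
        · subst k0
          rw [nat_fz_zero, sub_self, mul_zero, abs_zero]
          positivity
        · rw [v1 k k0 (by omega) _ rfl]
          exact (b1 k (by omega)).1)
      (fun k hk => by
        rcases Nat.eq_zero_or_pos k with k0 | k0
        · subst k0
          rw [nat_fz_zero, hX, sub_self, mul_zero, abs_zero]
          positivity
        · rw [v1 k k0 (by omega) _ hX.symm]
          exact (b1 k (by omega)).2) s2
    rw [v4 l hl1 hln, v5 l hl1 hln] at s3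
    have h2 := (unit_ratio hO (by linarith) hlam hi hi'.le hjM.le hl1 hln).2
    have h5 : (0 : ℝ) < 2 ^ ((i' - i) * z) := by positivity
    have e1 : 2 ^ ((i' - i) * z) * |2 ^ D.g i j l * D.sh i' j ω l -
        2 ^ D.g i j l * D.sh i' j ω' l| = 2 ^ ((i' - i) * z + D.g i j l) *
        |D.sh i' j ω l - D.sh i' j ω' l| := by
      have p1 : (0 : ℝ) < 2 ^ D.g i j l := by positivity
      rw [← mul_sub, abs_mul, abs_of_pos p1, pow_add]
      ring
    have e2 : 2 ^ D.g i' j l * |D.sh i' j ω l - D.sh i' j ω' l| =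
        |2 ^ D.g i' j l * D.sh i' j ω l - 2 ^ D.g i' j l * D.sh i' j ω' l| := by
      have p1 : (0 : ℝ) < 2 ^ D.g i' j l := by positivity
      rw [← mul_sub, abs_mul, abs_of_pos p1]
    refine le_of_mul_le_mul_left ?_ h5
    rw [e1]
    calc 2 ^ ((i' - i) * z + D.g i j l) * |D.sh i' j ω l - D.sh i' j ω' l|
        ≤ (exp (2 * C₁ * z) * 2 ^ D.g i' j l) * |D.sh i' j ω l - D.sh i' j ω' l| :=
          mul_le_mul_of_nonneg_right h2 (abs_nonneg _)
      _ = exp (2 * C₁ * z) *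
          |2 ^ D.g i' j l * D.sh i' j ω l - 2 ^ D.g i' j l * D.sh i' j ω' l| := by
          rw [← e2]
          ring
      _ ≤ exp (2 * C₁ * z) * (exp (c₂ * z) *
          (exp (2 * C₁ * z) * 2 ^ ((i' - i) * z) * (exp (c₁ * z) * δ))) :=
          mul_le_mul_of_nonneg_left s3 (by positivity)
      _ = 2 ^ ((i' - i) * z) * (exp ((c₁ + c₂ + 4 * C₁) * z) * δ) := by
          rw [show (c₁ + c₂ + 4 * C₁) * (z : ℝ) = 2 * C₁ * z + c₂ * z + 2 * C₁ * z + c₁ * z by
            ring, Real.exp_add, Real.exp_add, Real.exp_add]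
          ring
      _ ≤ 2 ^ ((i' - i) * z) * (exp ((c₁ + c₂ + 4 * C₁ + r₂ + 1) * z) * δ) := by
          refine mul_le_mul_of_nonneg_left (mul_le_mul_of_nonneg_right ?_ hδ) (by positivity)
          refine Real.exp_le_exp.2 (mul_le_mul_of_nonneg_right ?_ (by linarith))
          linarith
  · -- from the visible labels
    intro i' hi hi' ω ω' hω hω' Eω Eω' hb hc hT l hl1 hln δ hδ hd
    obtain ⟨-, hg, hf⟩ := hE ω Eω
    obtain ⟨Q, hQ, dQ, qQ, nQ⟩ := hg.fc
    have hX : D.X ω 0 = D.X ω' 0 := by rw [hO.X_zero, hO.X_zero, hT]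
    have hΦ' : D.Φ i' j ω' = D.Φ i' j ω := by
      unfold NDat2.Φ
      rw [hc]
    obtain ⟨v1, v2, v3, v4, v5⟩ := vis i' hi hi' ω ω' hω hω' Eω Eω' hb hc hT Q hQ dQ qQ nQ
    obtain ⟨b1, b2⟩ := core i' hi hi' ω Eω (D.X ω) (D.X ω') hX (own ω hω i' hi'.le)
      (by rw [← hΦ']; exact own ω' hω' i' hi'.le) Q hQ dQ nQ
    have one : (1 : ℝ) ≤ exp (r₁ * z) := Real.one_le_exp (by positivity)
    -- over the visible labels, units of `(i', j)`
    have s1 : ∀ k ≤ l, |nat (D.g i' j) (fr D (i', j) ω) (D.X ω) k -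
        nat (D.g i' j) (fr D (i', j) ω) (D.X ω') k| ≤
        exp (2 * C₁ * z) * 2 ^ ((i' - i) * z) * δ := by
      intro k hk
      rcases Nat.eq_zero_or_pos k with k0 | k0
      · subst k0
        unfold fr
        rw [nat_fz_zero, nat_fz_zero, hX, sub_self, abs_zero]
        positivity
      · rw [v4 k k0 (by omega), v5 k k0 (by omega)]
        have h2 := (unit_ratio hO (by linarith) hlam hi hi'.le hjM.le k0 (by omega : k ≤ n)).1
        have h3 := hd k k0 hk
        rw [← mul_sub, abs_mul, abs_of_pos (by positivity)] at h3 ⊢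
        calc 2 ^ D.g i' j k * |D.sh i' j ω k - D.sh i' j ω' k|
            ≤ (exp (2 * C₁ * z) * 2 ^ ((i' - i) * z + D.g i j k)) *
              |D.sh i' j ω k - D.sh i' j ω' k| := mul_le_mul_of_nonneg_right h2 (abs_nonneg _)
          _ = exp (2 * C₁ * z) * 2 ^ ((i' - i) * z) *
              (2 ^ D.g i j k * |D.sh i' j ω k - D.sh i' j ω' k|) := by
              rw [pow_add]
              ring
          _ ≤ exp (2 * C₁ * z) * 2 ^ ((i' - i) * z) * δ :=
              mul_le_mul_of_nonneg_left h3 (by positivity)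
    -- over `Q`, units of `(i, j)`
    have s2 : ∀ k ≤ l, |nat (D.g i j) Q (D.X ω) k - nat (D.g i j) Q (D.X ω') k| ≤
        exp ((c₂ + 4 * C₁) * z) * δ := by
      intro k hk
      rcases Nat.eq_zero_or_pos k with k0 | k0
      · subst k0
        have e0 : eval (D.X ω) (Q 0) = eval (D.X ω') (Q 0) :=
          Pool.SYS35.eval_congr (hQ 0) fun i hi => absurd hi (Nat.not_lt_zero _)
        unfold nat
        rw [hX, e0, sub_self, abs_zero]
        positivity
      have s3 := tr2 i' (fr D (i', j) ω) (fz (D.X ω 0) Q) (fz (D.X ω 0) (D.Φ i' j ω)) (D.X ω)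
        (D.X ω') _ k (tri_fz (hO.G_tri _ _ _) _) (tri_fz hQ _) (tri_fz (tΦ _ _ _) _)
        (fun k _ => (deg_fz (hO.G_deg _ _ _ _) _).trans hKK)
        (fun k _ => deg_fz ((dQ k).trans hKK') _)
        (fun k _ => (deg_fz (hO.P_deg _ _ _ _) _).trans hKK) v3 v2 (by omega) (by positivity)
        (fun k' hk' => by
          refine le_trans ?_ one
          rcases Nat.eq_zero_or_pos k' with k0 | k0
          · subst k0
            unfold fr
            rw [nat_fz_zero, sub_self, mul_zero, abs_zero]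
            exact zero_le_one
          · rw [v4 k' k0 (by omega)]
            have := hO.pos i' hi'.le j hjM.le ω hω k' k0 (by omega)
            rw [abs_mul, abs_of_pos (by positivity)]
            rw [le_div_iff₀ (by positivity)] at this
            linarith)
        (fun k' hk' => by
          refine le_trans ?_ one
          rcases Nat.eq_zero_or_pos k' with k0 | k0
          · subst k0
            unfold fr
            rw [nat_fz_zero, hX, sub_self, mul_zero, abs_zero]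
            exact zero_le_one
          · rw [v5 k' k0 (by omega)]
            have := hO.pos i' hi'.le j hjM.le ω' hω' k' k0 (by omega)
            rw [abs_mul, abs_of_pos (by positivity)]
            rw [le_div_iff₀ (by positivity)] at this
            linarith)
        (fun k' hk' => s1 k' (by omega))
      rw [v1 k k0 (by omega) _ rfl, v1 k k0 (by omega) _ hX.symm] at s3
      have h2 := (unit_ratio hO (by linarith) hlam hi hi'.le hjM.le k0 (by omega : k ≤ n)).2
      have h3 := abs_nat_scale (D.g i j) (D.g i' j) Q (D.X ω) (D.X ω') k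
      have h5 : (0 : ℝ) < 2 ^ D.g i' j k := by positivity
      have h6 : (0 : ℝ) < 2 ^ ((i' - i) * z) := by positivity
      refine le_of_mul_le_mul_left ?_ (mul_pos h5 h6)
      calc 2 ^ D.g i' j k * 2 ^ ((i' - i) * z) *
            |nat (D.g i j) Q (D.X ω) k - nat (D.g i j) Q (D.X ω') k|
          = 2 ^ ((i' - i) * z + D.g i j k) *
            |nat (D.g i' j) Q (D.X ω) k - nat (D.g i' j) Q (D.X ω') k| := by
            rw [pow_add]
            linear_combination (2 : ℝ) ^ ((i' - i) * z) * h3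
        _ ≤ (exp (2 * C₁ * z) * 2 ^ D.g i' j k) * (exp (c₂ * z) *
            (exp (2 * C₁ * z) * 2 ^ ((i' - i) * z) * δ)) :=
            mul_le_mul h2 s3 (abs_nonneg _) (by positivity)
        _ = 2 ^ D.g i' j k * 2 ^ ((i' - i) * z) * (exp ((c₂ + 4 * C₁) * z) * δ) := by
            rw [show (c₂ + 4 * C₁) * (z : ℝ) = 2 * C₁ * z + c₂ * z + 2 * C₁ * z by ring,
              Real.exp_add, Real.exp_add]
            ring
    have s3 := tr1 Q (P (bb D i j r ω)) (D.Φ i j ω) (D.X ω) (D.X ω') _ l hQ hf.tri (tΦ _ _ _)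
      (fun i _ => (dQ i).trans hKK') (fun i _ => (hf.deg i).trans hKK') (dΦ _ _ _)
      (nQ i hiM j hjM) (fun l hl => (hf.near i le_rfl l hl).1) hln (by positivity)
      (fun k hk => (b2 k (by omega)).1) (fun k hk => (b2 k (by omega)).2) s2
    unfold ze
    rw [← hb]
    refine s3.trans ?_
    rw [← mul_assoc, ← Real.exp_add]
    refine mul_le_mul_of_nonneg_right (Real.exp_le_exp.2 ?_) hδ
    rw [← add_mul]
    refine mul_le_mul_of_nonneg_right ?_ (by linarith)
    linarith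

end Pool.P5
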