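import Pool.Agent.H12.P5.Stm
import Pool.Agent.H14.P5.DepT

/-!
# P5: deeper contexts

`dep_stmt : DepStmt`.
-/

set_option autoImplicit false

namespace Pool.P5

open Finset Real MvPolynomial
open Pool.Agent.H49.Ent Pool.Agent.H32.Dense Pool.STK Pool.STAT Pool.MIC.Frm Pool.MIC7 Pool.FRM
open Pool.GSD
open Pool.BFL (Pb)
open Pool.P4 (t0 rt pp PthC FraC bb ze zt z0 be GoodS FrP t0_abs)

/-- The middle of the window. -/
theorem t0_half (D : NDat2) {J w v : ℕ} (hw : w ≤ J) (hv : v ≤ w) {ω : D.Ω}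
    (hX : D.X ω 0 = (D.T ω : ℝ) / 2 ^ J) :
    |t0 D J w ω + 1 / 2 * (1 / 2 ^ w) - D.X ω 0| ≤ 1 / 2 ^ v := by
  obtain ⟨h1, h2⟩ := t0_abs D hw hv hX
  rw [abs_le] at h1 h2 ⊢
  have h3 : (0 : ℝ) < 1 / 2 ^ w := by positivity
  constructor <;> linarith [h1.1, h1.2, h2.1, h2.2]

theorem dep_num {a b c x : ℝ} (ha : |a| ≤ x) (hb : |b| ≤ x) (hc : |c| ≤ x) :
    |2 * (a - 2 * b + c)| ≤ 8 * x ∧ |a - c - 2 * (a - 2 * b + c)| ≤ 10 * x := by
  rw [abs_le] at ha hb hc
  constructor <;> rw [abs_le] <;> constructor <;> linarith [ha.1, ha.2, hb.1, hb.2, hc.1, hc.2]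

/-- **Deeper contexts.** -/
theorem dep_stmt : DepStmt := by
  intro n K K' lam gam C₁ C hn hC₁ hC hlam
  obtain ⟨C', hC', H⟩ := depT_stmt n K K' lam gam C₁ C hn hC₁ hC hlam
  refine ⟨C' + 10, by linarith, fun y r r2 r' r'' a M => ⟨1, ?_⟩⟩
  intro J a₀ w₀ z i j D q κ hz hpl hO P E hE
  have hjM : j < M := by have := hpl.j2; omega
  have hiM : i < M := by have := hpl.i2; omega
  have hzr : (1 : ℝ) ≤ z := by exact_mod_cast hz
  have hwJ : ∀ w, w ≤ w₀ + (j + 1) * z → w ≤ J := by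
    intro w hw
    have h1 := hO.thin
    have h2 := hO.top
    have h3 : (j + 1) * z ≤ (M + 1) * z := Nat.mul_le_mul_right _ (by omega)
    omega
  obtain ⟨h1, h2, h3⟩ := H M J a₀ w₀ z i j r D q κ hz hiM hjM hO P E hE
  have hC2 : exp (C' * z) ≤ exp ((C' + 10) * z) :=
    Real.exp_le_exp.2 (mul_le_mul_of_nonneg_right (by linarith) (by linarith))
  have hC10 : 10 * exp (C' * z) ≤ exp ((C' + 10) * z) := by
    rw [add_mul, Real.exp_add, mul_comm]
    have h4 : (10 : ℝ) ≤ exp (10 * z) := by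
      have := Real.add_one_le_exp (10 * (z : ℝ))
      linarith
    exact mul_le_mul_of_nonneg_left h4 (by positivity)
  refine ⟨?_, ?_, ?_⟩
  · intro i' hi hi' ω ω' hω hω' Eω Eω' hb hc w hw1 hw2 hwT l hl1 hln
    have hw := hwJ w hw2
    have a1 := t0_abs D (J := J) (w := w) (v := w₀ + j * z) hw hw1 (hO.X_zero ω)
    have a2 := t0_abs D (J := J) (w := w) (v := w₀ + j * z) hw hw1 (hO.X_zero ω')
    have a3 := t0_half D (J := J) (w := w) (v := w₀ + j * z) hw hw1 (hO.X_zero ω)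
    have a4 := t0_half D (J := J) (w := w) (v := w₀ + j * z) hw hw1 (hO.X_zero ω')
    have htt : t0 D J w ω' = t0 D J w ω := by
      unfold P4.t0
      rw [hwT]
    rw [htt] at a2 a4
    have pt := fun t ht ht' => h1 i' hi hi' ω ω' hω hω' Eω Eω' hb hc t ht ht' l hl1 hln
    have p1 := pt _ a1.1 a2.1
    have p2 := pt _ a1.2 a2.2
    have p3 := pt _ a3 a4
    have p0 : (0 : ℝ) < 2 ^ ((i' - i) * z) := by positivity
    have e1 : exp (C' * z) / 2 ^ ((i' - i) * z) ≤ exp ((C' + 10) * z) / 2 ^ ((i' - i) * z) :=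
      div_le_div_of_nonneg_right hC2 p0.le
    have e2 : 10 * (exp (C' * z) / 2 ^ ((i' - i) * z)) ≤
        exp ((C' + 10) * z) / 2 ^ ((i' - i) * z) := by
      rw [← mul_div_assoc]
      exact div_le_div_of_nonneg_right hC10 p0.le
    have e3 : 0 ≤ exp (C' * z) / 2 ^ ((i' - i) * z) := by positivity
    obtain ⟨n1, n2⟩ := dep_num p2 p3 p1
    refine ⟨?_, ?_, ?_⟩
    · unfold z0
      rw [htt]
      linarith
    · refine le_trans (le_of_eq ?_) (n2.trans e2)
      unfold b1 P4.be b2 z0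
      rw [htt]
      congr 1
      ring
    · refine le_trans (le_of_eq ?_) (n1.trans (by linarith))
      unfold b2 z0
      rw [htt]
      congr 1
      ring
  · intro i' hi hi' ω ω' hω hω' Eω Eω' hb hc hT l hl1 hln δ hδ hd
    exact (h2 i' hi hi' ω ω' hω hω' Eω Eω' hb hc hT l hl1 hln δ hδ hd).trans
      (mul_le_mul_of_nonneg_right hC2 hδ)
  · intro i' hi hi' ω ω' hω hω' Eω Eω' hb hc hT l hl1 hln δ hδ hd
    exact (h3 i' hi hi' ω ω' hω hω' Eω Eω' hb hc hT l hl1 hln δ hδ hd).trans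
      (mul_le_mul_of_nonneg_right hC2 hδ)

end Pool.P5
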