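import Pool.Agent.H14.P5.Prp

/-!
# P5, (H0): the abstract time is almost independent of the line
-/

set_option autoImplicit false

namespace Pool.P5E

open Finset Real
open Pool.Agent.H49.Ent Pool.Agent.H32.Dense Pool.STK Pool.MIC Pool.STAT Pool.P5
open Pool.BFL (Pb)
open Pool.MIC.Frm Pool.MIC7 Pool.FRM Pool.GSD
open Pool.P4 (t0 rt pp PthC FraC bb ze zt z0 be cl1 dg dgp Ry cb LLC tq GoodS FrP err)
open Pool.P4E (wn_coarse lft_one few_idx use_gen quo_sub fb fb_le l7 l5 fb1_le Pb_le_one dg_sub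
  dg_abs dgp_sub dgp_abs log_le lft_cls)

section hyp

variable {D : NDat2} {n K K' J a₀ w₀ z M w i j r r2 r' r'' y a X : ℕ} {lam gam : ℕ → ℝ}
  {κ C₁ C : ℝ} {q : D.Ω → ℝ} {E : D.Ω → Prop} {P : D.Γ × D.Γ → ℕ → PN}
  {S : Slo D} {c k0 k1 : ℕ} {ys : Fin (k0 + k1) → ℕ} {gs : Fin c → ℕ}

theorem few_X (H : Hyp D n K K' J a₀ w₀ z M w i j r r2 r' r'' y a X lam gam κ C₁ C q E P S ys gs)
    {T ι : Type} [Fintype ι] (V : D.Ω → ι → ℤ) (Y : D.Ω → T) {m b : ℝ} (ha : 0 ≤ m) (hb : 0 < b)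
    (h1 : ∀ ω ω', 0 < q ω → 0 < q ω' → E ω → E ω' → Y ω = Y ω' →
      ∀ s, |((V ω s - V ω' s : ℤ) : ℝ)| ≤ m)
    (h2 : ∀ ω, 0 < q ω → ∀ s, |((V ω s : ℤ) : ℝ)| ≤ b * 2 ^ X) :
    CH q V Y ≤ fb (Fintype.card ι) m b X (Pb q fun ω => ¬ E ω) := by
  have h := few_idx H.ok.isLaw V Y E ha (by positivity) h1 h2
  refine h.trans ?_
  unfold fb
  have h3 := log_le X hb
  have h4 := Pb_nonneg H.ok.isLaw.nonneg (fun ω => ¬ E ω)
  have h5 := mul_le_mul_of_nonneg_left h3 h4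
  have h6 : (Fintype.card ι : ℝ) * (Real.log (2 * m + 1) + Pb q (fun ω => ¬ E ω) *
      Real.log (4 * (b * 2 ^ X) + 1)) ≤ Fintype.card ι * (Real.log (2 * m + 1) +
      Pb q (fun ω => ¬ E ω) * (Real.log (4 * b + 1) + X)) :=
    mul_le_mul_of_nonneg_left (by linarith) (Nat.cast_nonneg _)
  linarith


theorem Rg_one (H : Hyp D n K K' J a₀ w₀ z M w i j r r2 r' r'' y a X lam gam κ C₁ C q E P S ys gs) :
    1 ≤ Rg z C := by
  have h1 := H.Cg
  have h2 : 1 ≤ exp (3 * C * z) := Real.one_le_exp (by positivity)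
  unfold Rg
  linarith

/-- The unit of the slopes. -/
theorem unit_S (z : ℕ) (C x : ℝ) : x * (2 * Ry z C) / Rg z C = x / exp (2 * C * z) := by
  have e1 : Rg z C = 2 * Ry z C * exp (2 * C * z) := by
    unfold Rg Ry
    rw [mul_assoc 2, ← Real.exp_add]
    congr 2
    ring
  have e2 : Ry z C ≠ 0 := by
    unfold Ry
    positivity
  rw [e1]
  field_simp

/-- The slopes given the right side. -/
theorem Sv_few (H : Hyp D n K K' J a₀ w₀ z M w i j r r2 r' r'' y a X lam gam κ C₁ C q E P S ys gs)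
    {T : Type} (Y : D.Ω → T)
    (hY : ∀ ω ω', 0 < q ω → 0 < q ω' → E ω → E ω' → Y ω = Y ω' → ∀ u, gr gam n u → ∀ l,
      sl gam n l → |S.S ω u l - S.S ω' u l| ≤ exp (C * z) / 2 ^ (y * z)) :
    CH q (Sv D z X C S ys gs) Y ≤ fb (c * (k0 + k1)) 3 1 X (Pb q fun ω => ¬ E ω) := by
  have h := few_X H (ι := Fin c × Fin (k0 + k1)) (fun ω s => Sv D z X C S ys gs ω s.1 s.2) Y
    (m := 3) (b := 1) (by norm_num) one_pos
    (by
      intro ω ω' p p' hE hE' e s
      have h1 := hY ω ω' p p' hE hE' e _ (H.gs_gr s.1) _ (H.ys_sl s.2)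
      have hQ : (0 : ℝ) ≤ 2 ^ X := by positivity
      have hR : 1 ≤ exp (2 * C * z) := by
        have h1 := H.Cg
        exact Real.one_le_exp (by positivity)
      have h2 : (2 : ℝ) ^ X * |S.S ω (gs s.1) (ys s.2) * (2 * Ry z C) / Rg z C -
          S.S ω' (gs s.1) (ys s.2) * (2 * Ry z C) / Rg z C| ≤ 1 := by
        rw [unit_S, unit_S]
        exact quo_sub hQ hR h1 (tau_le H)
      have h3 := dg_sub h2
      unfold Sv
      linarith)
    (by
      intro ω _ s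
      unfold Sv
      rw [one_mul]
      exact dg_abs X _)
  rw [Fintype.card_prod, Fintype.card_fin, Fintype.card_fin] at h
  refine le_trans (CH_mono_left H.ok.isLaw.nonneg ?_) h
  intro ω ω' _ _ hh
  funext u a
  exact congrFun (Prod.ext_iff.1 hh).1 (u, a)

/-- The velocities of the slopes of the leaf, given the right side. -/
theorem Evv_few (H : Hyp D n K K' J a₀ w₀ z M w i j r r2 r' r'' y a X lam gam κ C₁ C q E P S ys gs)
    {T : Type} (Y : D.Ω → T)
    (hY : ∀ ω ω', 0 < q ω → 0 < q ω' → E ω → E ω' → Y ω = Y ω' → ∀ u, gr gam n u → ∀ l,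
      sl0 gam n l → |S.Ev ω u l / 2 ^ w - S.Ev ω' u l / 2 ^ w| ≤ exp (C * z) / 2 ^ (y * z)) :
    CH q (Evv D w z X C S ys gs) Y ≤ fb (c * k0) 3 1 X (Pb q fun ω => ¬ E ω) := by
  have h := few_X H (ι := Fin c × Fin k0) (fun ω s => Evv D w z X C S ys gs ω s.1 s.2) Y
    (m := 3) (b := 1) (by norm_num) one_pos
    (by
      intro ω ω' p p' hE hE' e s
      have h1 := hY ω ω' p p' hE hE' e _ (H.gs_gr s.1) _ (H.ys0 s.2)
      have hQ : (0 : ℝ) ≤ 2 ^ X := by positivity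
      have hR : 1 ≤ exp (2 * C * z) := by
        have h1 := H.Cg
        exact Real.one_le_exp (by positivity)
      have h2 : (2 : ℝ) ^ X *
          |S.Ev ω (gs s.1) (ys (Fin.castAdd k1 s.2)) / 2 ^ w * (2 * Ry z C) / Rg z C -
          S.Ev ω' (gs s.1) (ys (Fin.castAdd k1 s.2)) / 2 ^ w * (2 * Ry z C) / Rg z C| ≤ 1 := by
        rw [unit_S, unit_S]
        exact quo_sub hQ hR h1 (tau_le H)
      have h3 := dg_sub h2
      unfold Evv
      linarith)
    (by
      intro ω _ s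
      unfold Evv
      rw [one_mul]
      exact dg_abs X _)
  rw [Fintype.card_prod, Fintype.card_fin, Fintype.card_fin] at h
  refine le_trans (CH_mono_left H.ok.isLaw.nonneg ?_) h
  intro ω ω' _ _ hh
  funext u a
  exact congrFun (Prod.ext_iff.1 hh).1 (u, a)

/-- Floors of near numbers. -/
theorem floor_sub {Q x y m : ℝ} (hQ : 0 ≤ Q) (h : Q * |x - y| ≤ m) :
    |((⌊Q * x⌋ - ⌊Q * y⌋ : ℤ) : ℝ)| ≤ m + 2 := by
  have a1 := Int.floor_le (Q * x)
  have a2 := Int.lt_floor_add_one (Q * x)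
  have a3 := Int.floor_le (Q * y)
  have a4 := Int.lt_floor_add_one (Q * y)
  have a5 : |Q * x - Q * y| ≤ m := by
    rw [← mul_sub, abs_mul, abs_of_nonneg hQ]
    exact h
  push_cast
  rw [abs_le] at a5 ⊢
  constructor <;> linarith [a5.1, a5.2]

/-- The slopes of the leaf, given the right side. -/
theorem Elv_few (H : Hyp D n K K' J a₀ w₀ z M w i j r r2 r' r'' y a X lam gam κ C₁ C q E P S ys gs)
    {T : Type} (Y : D.Ω → T)
    (hY : ∀ ω ω', 0 < q ω → 0 < q ω' → E ω → E ω' → Y ω = Y ω' → ∀ u, sl1 gam n u → ∀ l,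
      sl0 gam n l → |S.El ω u l - S.El ω' u l| ≤ exp (C * z) / 2 ^ (y * z)) :
    CH q (Elv D X S ys) Y ≤ fb (k1 * k0) 3 (exp (C * z) + 1) X (Pb q fun ω => ¬ E ω) := by
  have h := few_X H (ι := Fin k1 × Fin k0) (fun ω s => Elv D X S ys ω s.1 s.2) Y
    (m := 3) (b := exp (C * z) + 1) (by norm_num) (by positivity)
    (by
      intro ω ω' p p' hE hE' e s
      have h1 := hY ω ω' p p' hE hE' e _ (H.ys1 s.1) _ (H.ys0 s.2)
      have hQ : (0 : ℝ) ≤ 2 ^ X := by positivity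
      have h2 := mul_le_mul_of_nonneg_left h1 hQ
      have h3 := floor_sub hQ (h2.trans (tau_le H))
      unfold Elv
      linarith)
    (by
      intro ω _ s
      unfold Elv
      have h1 := H.geo.bEl ω (ys (Fin.natAdd k0 s.1)) (ys (Fin.castAdd k1 s.2))
      have hQ : (1 : ℝ) ≤ 2 ^ X := one_le_pow₀ (by norm_num)
      have a1 := Int.floor_le ((2 : ℝ) ^ X * S.El ω (ys (Fin.natAdd k0 s.1))
        (ys (Fin.castAdd k1 s.2)))
      have a2 := Int.lt_floor_add_one ((2 : ℝ) ^ X * S.El ω (ys (Fin.natAdd k0 s.1))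
        (ys (Fin.castAdd k1 s.2)))
      rw [abs_le] at h1 ⊢
      have h2 := mul_le_mul_of_nonneg_left h1.1 (by linarith : (0 : ℝ) ≤ 2 ^ X)
      have h3 := mul_le_mul_of_nonneg_left h1.2 (by linarith : (0 : ℝ) ≤ 2 ^ X)
      constructor <;> linarith)
  rw [Fintype.card_prod, Fintype.card_fin, Fintype.card_fin] at h
  refine le_trans (CH_mono_left H.ok.isLaw.nonneg ?_) h
  intro ω ω' _ _ hh
  funext u a
  exact congrFun (Prod.ext_iff.1 hh).1 (u, a)

/-- The slow coordinates given the left side. -/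
theorem yv_few (H : Hyp D n K K' J a₀ w₀ z M w i j r r2 r' r'' y a X lam gam κ C₁ C q E P S ys gs)
    {T : Type} (Y : D.Ω → T)
    (hY : ∀ ω ω', 0 < q ω → 0 < q ω' → E ω → E ω' → Y ω = Y ω' → ∀ l, sl gam n l →
      |z0 D J w i j r P ω l - z0 D J w i j r P ω' l| ≤ exp (C * z) / 2 ^ (y * z)) :
    CH q (yv D J w z i j r X C P ys) Y ≤ fb (k0 + k1) 3 1 X (Pb q fun ω => ¬ E ω) := by
  have h := few_X H (yv D J w z i j r X C P ys) Y (m := 3) (b := 1) (by norm_num) one_pos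
    (by
      intro ω ω' p p' hE hE' e s
      have h1 := hY ω ω' p p' hE hE' e _ (H.ys_sl s)
      have hR := Ry_one H
      have hQ : (0 : ℝ) ≤ 2 ^ X := by positivity
      have h2 : (2 : ℝ) ^ X * |(z0 D J w i j r P ω (ys s) + Ry z C) / (2 * Ry z C) -
          (z0 D J w i j r P ω' (ys s) + Ry z C) / (2 * Ry z C)| ≤ 1 := by
        refine quo_sub (τ := exp (C * z) / 2 ^ (y * z)) hQ (by linarith) ?_ (tau_le H)
        rw [add_sub_add_right_eq_sub]
        exact h1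
      have h3 := dgp_sub h2
      unfold yv
      linarith)
    (by
      intro ω _ s
      unfold yv
      rw [one_mul]
      exact dgp_abs X _)
  rwa [Fintype.card_fin] at h

/-- A vector of digits, given one side. -/
theorem dgv_few (H : Hyp D n K K' J a₀ w₀ z M w i j r r2 r' r'' y a X lam gam κ C₁ C q E P S ys gs)
    {T : Type} {d : ℕ} (f : D.Ω → Fin d → ℝ) {R : ℝ} (hR : 1 ≤ R) (Y : D.Ω → T)
    (hY : ∀ ω ω', 0 < q ω → 0 < q ω' → E ω → E ω' → Y ω = Y ω' → ∀ s,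
      |f ω s - f ω' s| ≤ exp (C * z) / 2 ^ (y * z)) :
    CH q (fun ω s => dg X (f ω s / R)) Y ≤ fb d 3 1 X (Pb q fun ω => ¬ E ω) := by
  have h := few_X H (fun ω s => dg X (f ω s / R)) Y (m := 3) (b := 1) (by norm_num) one_pos
    (by
      intro ω ω' p p' hE hE' e s
      have h1 := hY ω ω' p p' hE hE' e s
      have h2 : (2 : ℝ) ^ X * |f ω s / R - f ω' s / R| ≤ 1 :=
        quo_sub (by positivity) hR h1 (tau_le H)
      have h3 := dg_sub h2
      linarith)
    (by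
      intro ω _ s
      rw [one_mul]
      exact dg_abs X _)
  rwa [Fintype.card_fin] at h

theorem fbE_le (H : Hyp D n K K' J a₀ w₀ z M w i j r r2 r' r'' y a X lam gam κ C₁ C q E P S ys gs)
    (d : ℕ) {t : ℝ} (h0 : 0 ≤ t) (h1 : t ≤ 1) :
    fb d 3 (exp (C * z) + 1) X t ≤ (1 + 7 * d) * (1 + X * t) + d * (3 + C * z) := by
  have hC := H.Cg
  have hz : (1 : ℝ) ≤ z := by exact_mod_cast H.z1
  have hCz : 0 ≤ C * z := by positivity
  have e1 : Real.log (4 * (exp (C * z) + 1) + 1) ≤ 3 + C * z := by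
    have h2 : (1 : ℝ) ≤ exp (C * z) := Real.one_le_exp hCz
    have h3 : 4 * (exp (C * z) + 1) + 1 ≤ 9 * exp (C * z) := by linarith
    have h4 := Real.log_le_log (by positivity) h3
    rw [Real.log_mul (by norm_num) (by positivity), Real.log_exp] at h4
    have h5 : Real.log 9 ≤ 3 := by
      have h6 : (9 : ℝ) ≤ 16 := by norm_num
      have h7 := Real.log_le_log (by norm_num) h6
      have h8 : Real.log 16 = 4 * Real.log 2 := by
        rw [show (16 : ℝ) = 2 ^ 4 by norm_num, Real.log_pow]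
        norm_num
      have := Real.log_two_lt_d9
      linarith
    linarith
  have e2 : 0 ≤ Real.log (4 * (exp (C * z) + 1) + 1) :=
    Real.log_nonneg (by linarith [Real.exp_pos (C * z)])
  have hd : (0 : ℝ) ≤ d := Nat.cast_nonneg d
  have hX : (0 : ℝ) ≤ X := Nat.cast_nonneg X
  have hXt : 0 ≤ (X : ℝ) * t := mul_nonneg hX h0
  have l3 : Real.log 2 ≤ 1 := by
    have := Real.log_two_lt_d9
    linarith
  unfold fb
  have e3 : t * (Real.log (4 * (exp (C * z) + 1) + 1) + X) ≤ 3 + C * z + X * t := by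
    have f1 : t * Real.log (4 * (exp (C * z) + 1) + 1) ≤
        1 * Real.log (4 * (exp (C * z) + 1) + 1) := mul_le_mul_of_nonneg_right h1 e2
    linarith
  have e4 := mul_le_mul_of_nonneg_left (add_le_add l7 e3) hd
  have e5 : 0 ≤ (d : ℝ) * (X * t) := mul_nonneg hd hXt
  linarith

/-- The line, with the context. -/
noncomputable def lnv (D : NDat2) (J w z i j r X : ℕ) (C : ℝ) (P : D.Γ × D.Γ → ℕ → PN)
    {c k0 k1 : ℕ} (ys : Fin (k0 + k1) → ℕ) (gs : Fin c → ℕ) (ω : D.Ω) :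
    (Fin c → ℤ) × (VT D.Γ c k0 k1 × ((D.Γ × D.Γ) × ℕ)) :=
  (nuv D J w z i j r X C P gs ω, (P5.vv D J w z i j r X C P ys gs ω, cb D J w i j r ω))

theorem line_eq (D : NDat2) (J w z i j r X : ℕ) (C : ℝ) (P : D.Γ × D.Γ → ℕ → PN)
    (S : Slo D) {c k0 k1 : ℕ} (ys : Fin (k0 + k1) → ℕ) (gs : Fin c → ℕ) (q : D.Ω → ℝ) :
    (qh (c := c) (k0 := k0) (k1 := k1) D J w z i j r X C P S ys gs q).line =
      lnv D J w z i j r X C P ys gs := rfl

/-- The line is a function of the line and of the window. -/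
theorem line_wn (H : Hyp D n K K' J a₀ w₀ z M w i j r r2 r' r'' y a X lam gam κ C₁ C q E P S ys gs) :
    Det q (D.wn J w) (lnv D J w z i j r X C P ys gs) := by
  intro ω ω' a b e
  have e1 := bb_wn H ω ω' a b e
  have e2 : D.ln ω = D.ln ω' := (Prod.ext_iff.1 e).1
  have e3 : D.T ω / 2 ^ (J - w) = D.T ω' / 2 ^ (J - w) := (Prod.ext_iff.1 e).2
  have e4 : t0 D J w ω = t0 D J w ω' := by
    unfold P4.t0
    rw [e3]
  have ezt : ∀ (t : ℝ) (l : ℕ), zt D i j r P t ω l = zt D i j r P t ω' l := by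
    intro t l
    unfold P4.zt
    rw [e1, e2]
  have ez : ∀ l, z0 D J w i j r P ω l = z0 D J w i j r P ω' l := by
    intro l
    unfold P4.z0
    rw [e4, ezt]
  have eb2 : ∀ l, b2 D J w i j r P ω l = b2 D J w i j r P ω' l := by
    intro l
    unfold P5.b2
    rw [ez, e4, ezt, ezt]
  have eb : ∀ l, b1 D J w i j r P ω l = b1 D J w i j r P ω' l := by
    intro l
    unfold P5.b1 P4.be
    rw [eb2, ez, e4, ezt]
  have ecb : cb D J w i j r ω = cb D J w i j r ω' := Prod.ext e1 e3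
  have en : nuv D J w z i j r X C P gs ω = nuv D J w z i j r X C P gs ω' := by
    funext u
    unfold P5.nuv
    rw [ez]
  have ey : yv D J w z i j r X C P ys ω = yv D J w z i j r X C P ys ω' := by
    funext u
    unfold P5.yv
    rw [ez]
  have em : mv D J w z i j r X C P ys ω = mv D J w z i j r X C P ys ω' := by
    funext u
    unfold P5.mv
    rw [eb]
  have ebe : bev D J w z i j r X C P gs ω = bev D J w z i j r X C P gs ω' := by
    funext u
    unfold P5.bev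
    rw [eb]
  have ebe2 : be2v D J w z i j r X C P gs ω = be2v D J w z i j r X C P gs ω' := by
    funext u
    unfold P5.be2v
    rw [eb2]
  unfold lnv P5.vv
  rw [en, ey, em, ebe, ebe2, ecb]

/-- The samples which agree on the right side. -/
theorem rgt_cls (H : Hyp D n K K' J a₀ w₀ z M w i j r r2 r' r'' y a X lam gam κ C₁ C q E P S ys gs)
    {r₁ : ℕ} {ω ω' : D.Ω} (p : 0 < q ω) (p' : 0 < q ω')
    (e : (D.rgt i j r₁ r 1 ω, (D.T ω, cb D J w i j r ω)) =
      (D.rgt i j r₁ r 1 ω', (D.T ω', cb D J w i j r ω'))) :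
    bb D i j r ω = bb D i j r ω' ∧ D.T ω = D.T ω' ∧
      D.s (i - r₁) (j + r) ω = D.s (i - r₁) (j + r) ω' ∧
      D.c (i - r₁) (j + r) ω = D.c (i - r₁) (j + r) ω' := by
  have e1 := Prod.ext_iff.1 e
  have e2 := Prod.ext_iff.1 e1.2
  have e3 := Prod.ext_iff.1 e2.2
  refine ⟨e3.1, e2.1, rgt_one H p p' e1.1 e2.1, ?_⟩
  have e4 := congrFun e1.1 (1 : Fin 2)
  have e5 : D.c (i - ((1 : Fin 2) : ℕ) * r₁) (j + ((1 : Fin 2) : ℕ) * r) ω =
    D.c (i - ((1 : Fin 2) : ℕ) * r₁) (j + ((1 : Fin 2) : ℕ) * r) ω' := e4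
  simpa using e5

/-- Two functions. -/
theorem CH_two {Ω α β γ : Type} [Fintype Ω] {q : Ω → ℝ} (hq : ∀ ω, 0 ≤ q ω) (f : Ω → α)
    (g : Ω → β) (h : Ω → γ) {a b : ℝ} (ha : CH q f h ≤ a) (hb : CH q g h ≤ b) :
    CH q (fun ω => (f ω, g ω)) h ≤ a + b :=
  (CH_subadd hq f g h).trans (add_le_add ha hb)

/-- The line, given the left side. -/
theorem line_few (H : Hyp D n K K' J a₀ w₀ z M w i j r r2 r' r'' y a X lam gam κ C₁ C q E P S ys gs)
    {t : ℝ} (ht : t = Pb q fun ω => ¬ E ω) :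
    CH q (lnv D J w z i j r X C P ys gs)
      (fun ω => (D.lft i j r'' r 1 ω, (D.T ω, cb D J w i j r ω))) ≤
      (5 + 7 * (3 * c + k0 + 2 * k1)) * (1 + X * t) := by
  have hl := H.ok.isLaw
  have hq := hl.nonneg
  have t0 : 0 ≤ t := by rw [ht]; exact Pb_nonneg hq _
  have t1 : t ≤ 1 := by rw [ht]; exact Pb_le_one hl _
  have hRy := Ry_one H
  have key : ∀ ω ω', 0 < q ω → 0 < q ω' → E ω → E ω' →
      (D.lft i j r'' r 1 ω, (D.T ω, cb D J w i j r ω)) =
        (D.lft i j r'' r 1 ω', (D.T ω', cb D J w i j r ω')) → ∀ l, 1 ≤ l → l ≤ n →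
      |z0 D J w i j r P ω l - z0 D J w i j r P ω' l| ≤ exp (C * z) / 2 ^ (y * z) ∧
      |b1 D J w i j r P ω l - b1 D J w i j r P ω' l| ≤ exp (C * z) / 2 ^ (y * z) ∧
      |b2 D J w i j r P ω l - b2 D J w i j r P ω' l| ≤ exp (C * z) / 2 ^ (y * z) := by
    intro ω ω' p p' hE hE' e l l1 l2
    obtain ⟨e1, e2, e3⟩ := lft_cls e
    exact H.geo.left3 ω ω' p p' hE hE' e1 e2 w H.w1 H.w2 e3 l l1 l2
  have bn : CH q (nuv D J w z i j r X C P gs)
      (fun ω => (D.lft i j r'' r 1 ω, (D.T ω, cb D J w i j r ω))) ≤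
      (1 + 7 * c) * (1 + X * t) := by
    refine (dgv_few H (fun ω u => z0 D J w i j r P ω (gs u)) (Rg_one H) _
      fun ω ω' p p' hE hE' e s => ?_).trans ?_
    · exact (key ω ω' p p' hE hE' e _ (H.gs_gr s).1 (H.gs_gr s).2.1).1
    · rw [← ht]
      exact fb1_le c X t0 t1
  have b_1 : CH q (bev D J w z i j r X C P gs)
      (fun ω => (D.lft i j r'' r 1 ω, (D.T ω, cb D J w i j r ω))) ≤
      (1 + 7 * c) * (1 + X * t) := by
    refine (dgv_few H (fun ω u => b1 D J w i j r P ω (gs u)) (Rg_one H) _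
      fun ω ω' p p' hE hE' e s => ?_).trans ?_
    · exact (key ω ω' p p' hE hE' e _ (H.gs_gr s).1 (H.gs_gr s).2.1).2.1
    · rw [← ht]
      exact fb1_le c X t0 t1
  have b_2 : CH q (be2v D J w z i j r X C P gs)
      (fun ω => (D.lft i j r'' r 1 ω, (D.T ω, cb D J w i j r ω))) ≤
      (1 + 7 * c) * (1 + X * t) := by
    refine (dgv_few H (fun ω u => b2 D J w i j r P ω (gs u)) (Rg_one H) _
      fun ω ω' p p' hE hE' e s => ?_).trans ?_
    · exact (key ω ω' p p' hE hE' e _ (H.gs_gr s).1 (H.gs_gr s).2.1).2.2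
    · rw [← ht]
      exact fb1_le c X t0 t1
  have bm : CH q (mv D J w z i j r X C P ys)
      (fun ω => (D.lft i j r'' r 1 ω, (D.T ω, cb D J w i j r ω))) ≤
      (1 + 7 * k1) * (1 + X * t) := by
    refine (dgv_few H (fun ω (l : Fin k1) => b1 D J w i j r P ω (ys (Fin.natAdd k0 l)))
      (R := 2 * Ry z C) (by linarith) _ fun ω ω' p p' hE hE' e s => ?_).trans ?_
    · exact (key ω ω' p p' hE hE' e _ (H.ys1 s).1 (H.ys1 s).2.1.le).2.1
    · rw [← ht]
      exact fb1_le k1 X t0 t1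
  have by' : CH q (yv D J w z i j r X C P ys)
      (fun ω => (D.lft i j r'' r 1 ω, (D.T ω, cb D J w i j r ω))) ≤
      (1 + 7 * ((k0 + k1 : ℕ) : ℝ)) * (1 + X * t) := by
    refine (yv_few H _ fun ω ω' p p' hE hE' e l hl' => ?_).trans ?_
    · exact (key ω ω' p p' hE hE' e l hl'.1 hl'.2.1.le).1
    · rw [← ht]
      exact fb1_le (k0 + k1) X t0 t1
  have c1 : CH q (lnv D J w z i j r X C P ys gs)
      (fun ω => (D.lft i j r'' r 1 ω, (D.T ω, cb D J w i j r ω))) ≤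
      CH q (fun ω => (nuv D J w z i j r X C P gs ω, (yv D J w z i j r X C P ys ω,
        (mv D J w z i j r X C P ys ω, (bev D J w z i j r X C P gs ω,
          be2v D J w z i j r X C P gs ω)))))
        (fun ω => (D.lft i j r'' r 1 ω, (D.T ω, cb D J w i j r ω))) := by
    refine CH_mono_left hq ?_
    intro ω ω' _ _ e
    simp only [Prod.mk.injEq] at e
    obtain ⟨⟨e1, e2, e3, e3', e3''⟩, e4, e5, e6⟩ := e
    unfold lnv P5.vv
    rw [e1, e2, e3, e3', e3'', e6]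
  have c2 := CH_two hq _ _ _ bn (CH_two hq _ _ _ by' (CH_two hq _ _ _ bm
    (CH_two hq _ _ _ b_1 b_2)))
  refine c1.trans (c2.trans (le_of_eq ?_))
  push_cast
  ring

/-- The slopes. -/
noncomputable def slv (D : NDat2) (w z X : ℕ) (C : ℝ) (S : Slo D) {c k0 k1 : ℕ}
    (ys : Fin (k0 + k1) → ℕ) (gs : Fin c → ℕ) (ω : D.Ω) : (Fin c → Fin (k0 + k1) → ℤ) ×
    ((Fin k1 → Fin k0 → ℤ) × (Fin c → Fin k0 → ℤ)) :=
  (Sv D z X C S ys gs ω, (Elv D X S ys ω, Evv D w z X C S ys gs ω))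

/-- The slopes and the line. -/
theorem slopes_line
    (H : Hyp D n K K' J a₀ w₀ z M w i j r r2 r' r'' y a X lam gam κ C₁ C q E P S ys gs)
    {t : ℝ} (ht : t = Pb q fun ω => ¬ E ω) :
    CH q (slv D w z X C S ys gs) (fun ω => (D.T ω, cb D J w i j r ω)) ≤
      CH q (slv D w z X C S ys gs)
        (fun ω => (lnv D J w z i j r X C P ys gs ω, (D.T ω, cb D J w i j r ω))) +
      (κ * z + (5 + 7 * (3 * c + k0 + 2 * k1)) * (1 + X * t) +
        ((3 + 7 * (c * (k0 + k1) + k1 * k0 + c * k0)) * (1 + X * t) +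
          k1 * k0 * (3 + C * z))) := by
  have hl := H.ok.isLaw
  have hq := hl.nonneg
  have t0 : 0 ≤ t := by rw [ht]; exact Pb_nonneg hq _
  have t1 : t ≤ 1 := by rw [ht]; exact Pb_le_one hl _
  have hr : r'' ≤ i := H.i1
  have a1 := mi_cb H (r₁ := r'') H.i1 H.i2
  have b4 := line_few H ht
  have b5 : CH q (Sv D z X C S ys gs)
      (fun ω => (D.rgt i j r'' r 1 ω, (D.T ω, cb D J w i j r ω))) ≤
      (1 + 7 * ((c * (k0 + k1) : ℕ) : ℝ)) * (1 + X * t) := by
    refine (Sv_few H _ fun ω ω' p p' hE hE' e u hu l hl' => ?_).trans ?_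
    · obtain ⟨e1, e2, e3, -⟩ := rgt_cls H p p' e
      exact (H.geo.right2 ω ω' p p' hE hE' e1 e2 e3).1 u hu l hl'
    · rw [← ht]
      exact fb1_le (c * (k0 + k1)) X t0 t1
  have b6 : CH q (Elv D X S ys)
      (fun ω => (D.rgt i j r'' r 1 ω, (D.T ω, cb D J w i j r ω))) ≤
      (1 + 7 * ((k1 * k0 : ℕ) : ℝ)) * (1 + X * t) + ((k1 * k0 : ℕ) : ℝ) * (3 + C * z) := by
    refine (Elv_few H _ fun ω ω' p p' hE hE' e u hu l hl' => ?_).trans ?_
    · obtain ⟨e1, e2, e3, -⟩ := rgt_cls H p p' e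
      exact (H.geo.right2 ω ω' p p' hE hE' e1 e2 e3).2 u hu l hl'
    · rw [← ht]
      exact fbE_le H (k1 * k0) t0 t1
  have b7 : CH q (Evv D w z X C S ys gs)
      (fun ω => (D.rgt i j r'' r 1 ω, (D.T ω, cb D J w i j r ω))) ≤
      (1 + 7 * ((c * k0 : ℕ) : ℝ)) * (1 + X * t) := by
    refine (Evv_few H _ fun ω ω' p p' hE hE' e u hu l hl' => ?_).trans ?_
    · obtain ⟨e1, e2, -, e4⟩ := rgt_cls H p p' e
      exact H.geo.right3 ω ω' p p' hE hE' e1 e2 e4 u hu l hl' w H.w1 H.w2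
    · rw [← ht]
      exact fb1_le (c * k0) X t0 t1
  have b8 := CH_two hq _ _ _ b5 (CH_two hq _ _ _ b6 b7)
  have b9 := use_gen hq a1 b4 b8
  refine b9.trans (le_of_eq ?_)
  push_cast
  unfold slv
  ring

/-- The time, given the context. -/
theorem time_ub (H : Hyp D n K K' J a₀ w₀ z M w i j r r2 r' r'' y a X lam gam κ C₁ C q E P S ys gs) :
    CH q D.T (cb D J w i j r) ≤ (J - w : ℕ) * Real.log 2 + 3 := by
  have hl := H.ok.isLaw
  have hq := hl.nonneg
  have f1 := CH_le_int hq hl.sum_one (fun ω => (D.T ω : ℤ)) (cb D J w i j r)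
    (fun _ => (2 : ℝ) ^ (J - w)) (by
      intro ω ω' _ _ e
      have e1 : D.T ω / 2 ^ (J - w) = D.T ω' / 2 ^ (J - w) := (Prod.ext_iff.1 e).2
      have g1 := Nat.div_add_mod (D.T ω) (2 ^ (J - w))
      have g2 := Nat.div_add_mod (D.T ω') (2 ^ (J - w))
      have g3 := Nat.mod_lt (D.T ω) (by positivity : 0 < 2 ^ (J - w))
      have g4 := Nat.mod_lt (D.T ω') (by positivity : 0 < 2 ^ (J - w))
      rw [← e1] at g2
      have g1' : (D.T ω : ℝ) = 2 ^ (J - w) * ((D.T ω / 2 ^ (J - w) : ℕ) : ℝ) +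
          ((D.T ω % 2 ^ (J - w) : ℕ) : ℝ) := by exact_mod_cast g1.symm
      have g2' : (D.T ω' : ℝ) = 2 ^ (J - w) * ((D.T ω / 2 ^ (J - w) : ℕ) : ℝ) +
          ((D.T ω' % 2 ^ (J - w) : ℕ) : ℝ) := by exact_mod_cast g2.symm
      have g6 : ((D.T ω % 2 ^ (J - w) : ℕ) : ℝ) < 2 ^ (J - w) := by exact_mod_cast g3
      have g7 : ((D.T ω' % 2 ^ (J - w) : ℕ) : ℝ) < 2 ^ (J - w) := by exact_mod_cast g4
      have g8 : (0 : ℝ) ≤ ((D.T ω % 2 ^ (J - w) : ℕ) : ℝ) := Nat.cast_nonneg _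
      have g9 : (0 : ℝ) ≤ ((D.T ω' % 2 ^ (J - w) : ℕ) : ℝ) := Nat.cast_nonneg _
      push_cast only [Int.cast_sub, Int.cast_natCast]
      rw [abs_le]
      constructor <;> linarith)
  rw [Ex_const hl.sum_one] at f1
  have f2 : CH q D.T (cb D J w i j r) = CH q (fun ω => (D.T ω : ℤ)) (cb D J w i j r) := by
    refine CH_congr hq ?_ ?_ (fun _ _ _ _ h => h) (fun _ _ _ _ h => h)
    · intro ω ω' _ _ h
      have : D.T ω = D.T ω' := (Prod.ext_iff.1 h).1
      simp only [this]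
    · intro ω ω' _ _ h
      have : (D.T ω : ℤ) = D.T ω' := (Prod.ext_iff.1 h).1
      exact_mod_cast this
  have f3 : Real.log (2 * 2 ^ (J - w) + 1) ≤ (J - w : ℕ) * Real.log 2 + 3 := by
    have g1 : (1 : ℝ) ≤ 2 ^ (J - w) := one_le_pow₀ (by norm_num)
    have g2 : 2 * (2 : ℝ) ^ (J - w) + 1 ≤ (2 * 3 + 1) * 2 ^ (J - w) := by linarith
    have g3 := Real.log_le_log (by positivity) g2
    have g4 : Real.log ((2 * 3 + 1) * 2 ^ (J - w)) = Real.log (2 * 3 + 1) +
        (J - w : ℕ) * Real.log 2 := by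
      rw [Real.log_mul (by norm_num) (by positivity), Real.log_pow]
    have g5 := l7
    linarith
  linarith

/-- The time, given the line. -/
theorem time_lb (H : Hyp D n K K' J a₀ w₀ z M w i j r r2 r' r'' y a X lam gam κ C₁ C q E P S ys gs) :
    ((J - w : ℕ) : ℝ) * Real.log 2 - κ * z ≤ CH q D.T (lnv D J w z i j r X C P ys gs) := by
  have hl := H.ok.isLaw
  have hq := hl.nonneg
  have hX := wX_le H
  have hw1 : w₀ ≤ w := by
    have := H.w1
    omega
  have f1 := Pool.TMU.CH_low hl D.T D.ln hw1 (by omega) H.ok.ln_w H.tmu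
  exact f1.trans (CH_mono_cond hq (line_wn H))

/-- **(H0)**, the entropies. -/
theorem h0_key (H : Hyp D n K K' J a₀ w₀ z M w i j r r2 r' r'' y a X lam gam κ C₁ C q E P S ys gs)
    {t : ℝ} (ht : t = Pb q fun ω => ¬ E ω) :
    CH q (tv D J w z i j r X C S ys gs) (cb D J w i j r) ≤
      CH q (tv D J w z i j r X C S ys gs) (lnv D J w z i j r X C P ys gs) +
        (3 + 2 * (κ * z) + ((5 + 7 * (3 * c + k0 + 2 * k1)) * (1 + X * t) +
        ((3 + 7 * (c * (k0 + k1) + k1 * k0 + c * k0)) * (1 + X * t) +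
          k1 * k0 * (3 + C * z)))) := by
  have hl := H.ok.isLaw
  have hq := hl.nonneg
  have d1 := time_ub H
  have d2 := time_lb H
  have b6 := slopes_line H ht
  have k1' : CH q (tv D J w z i j r X C S ys gs) (cb D J w i j r) ≤
      CH q D.T (cb D J w i j r) +
      CH q (slv D w z X C S ys gs) (fun ω => (D.T ω, cb D J w i j r ω)) := by
    have f1 : CH q (tv D J w z i j r X C S ys gs) (cb D J w i j r) ≤
        CH q (fun ω => (slv D w z X C S ys gs ω, D.T ω)) (cb D J w i j r) := by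
      refine CH_mono_left hq ?_
      intro ω ω' _ _ e
      unfold slv at e
      simp only [Prod.mk.injEq] at e
      obtain ⟨⟨⟨e1, e2, e3⟩, e4⟩, e5⟩ := e
      unfold P5.tv
      rw [e1, e2, e3, e4, e5]
    have f2 := CH_chain hq (slv D w z X C S ys gs) D.T (cb D J w i j r)
    linarith
  have k2' : CH q D.T (lnv D J w z i j r X C P ys gs) + CH q (slv D w z X C S ys gs)
      (fun ω => (lnv D J w z i j r X C P ys gs ω, (D.T ω, cb D J w i j r ω))) ≤
      CH q (tv D J w z i j r X C S ys gs) (lnv D J w z i j r X C P ys gs) := by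
    have f1 : CH q (fun ω => (slv D w z X C S ys gs ω, D.T ω)) (lnv D J w z i j r X C P ys gs) ≤
        CH q (tv D J w z i j r X C S ys gs) (lnv D J w z i j r X C P ys gs) := by
      refine CH_mono_left hq ?_
      intro ω ω' _ _ e
      have e1 : tv D J w z i j r X C S ys gs ω = tv D J w z i j r X C S ys gs ω' :=
        (Prod.ext_iff.1 e).1
      unfold P5.tv at e1
      simp only [Prod.mk.injEq] at e1
      obtain ⟨-, e2, e3, e4, e5⟩ := e1
      show (slv D w z X C S ys gs ω, D.T ω) = (slv D w z X C S ys gs ω', D.T ω')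
      unfold slv
      rw [e2, e3, e4, e5]
    have f2 := CH_chain hq (slv D w z X C S ys gs) D.T (lnv D J w z i j r X C P ys gs)
    have f3 : CH q (slv D w z X C S ys gs)
        (fun ω => (lnv D J w z i j r X C P ys gs ω, (D.T ω, cb D J w i j r ω))) ≤
        CH q (slv D w z X C S ys gs) (fun ω => (D.T ω, lnv D J w z i j r X C P ys gs ω)) :=
      CH_mono_cond hq fun ω ω' _ _ e => by
        simp only [Prod.mk.injEq] at e ⊢
        exact ⟨e.2.1, e.1⟩
    linarith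
  linarith

end hyp

/-- **(H0).** -/
theorem h0_stmt : H0Stmt := by
  intro n K K' c k0 k1 C₁ C
  obtain ⟨A, hA⟩ : ∃ A : ℝ, A = (5 + 7 * (3 * (c : ℝ) + k0 + 2 * k1)) +
    (3 + 7 * (c * (k0 + k1) + k1 * k0 + c * k0)) := ⟨_, rfl⟩
  have hA0 : 0 ≤ A := by rw [hA]; positivity
  refine ⟨3 + 2 + A + (k1 : ℝ) * k0 * (3 + |C|), by positivity, ?_⟩
  intro D J a₀ w₀ z M w i j r r2 r' r'' y a X lam gam κ q E P S ys gs H
  obtain ⟨t, ht⟩ : ∃ t, t = Pb q fun ω => ¬ E ω := ⟨_, rfl⟩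
  have key := h0_key H ht
  have hl := H.ok.isLaw
  have t0 : 0 ≤ t := by rw [ht]; exact Pb_nonneg hl.nonneg _
  have hz : (1 : ℝ) ≤ z := by exact_mod_cast H.z1
  have hκ := H.κ0
  have hκz : 0 ≤ κ * z := by positivity
  have hXt : 0 ≤ (X : ℝ) * t := mul_nonneg (Nat.cast_nonneg X) t0
  have hC : 0 ≤ C := by have := H.Cg; linarith
  rw [← ht]
  refine key.trans (add_le_add le_rfl ?_)
  unfold P4.err
  rw [abs_of_nonneg hC]
  obtain ⟨m, hm⟩ : ∃ m : ℝ, m = (k1 : ℝ) * k0 := ⟨_, rfl⟩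
  have hm0 : 0 ≤ m := by rw [hm]; positivity
  have e1 : (5 + 7 * (3 * (c : ℝ) + k0 + 2 * k1)) * (1 + X * t) +
      ((3 + 7 * (c * (k0 + k1) + k1 * k0 + c * k0)) * (1 + X * t) + k1 * k0 * (3 + C * z)) =
      A * (1 + X * t) + m * (3 + C * z) := by
    rw [hA, hm]
    ring
  rw [e1, ← hm]
  have e2 : m * (3 + C * z) ≤ m * (3 + C) * z := by
    have f1 : 3 + C * z ≤ (3 + C) * z := by linarith
    have := mul_le_mul_of_nonneg_left f1 hm0
    linarith
  have e3 : A * (1 + X * t) ≤ A * z + A * (X * t) := by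
    have := mul_le_mul_of_nonneg_left hz hA0
    linarith
  have e4 : (3 + 2 + A + m * (3 + C)) * ((1 + κ) * z + X * t) =
      (3 + 2 + A + m * (3 + C)) * z + (3 + 2 + A + m * (3 + C)) * (κ * z) +
      (3 + 2 + A + m * (3 + C)) * (X * t) := by ring
  rw [e4]
  have e5 : 0 ≤ m * (3 + C) := by positivity
  have e6 : A * (X * t) ≤ (3 + 2 + A + m * (3 + C)) * (X * t) :=
    mul_le_mul_of_nonneg_right (by linarith) hXt
  have e7 : 2 * (κ * z) ≤ (3 + 2 + A + m * (3 + C)) * (κ * z) :=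
    mul_le_mul_of_nonneg_right (by linarith) hκz
  have e8 : (3 + 2 + A + m * (3 + C)) * z = 3 * z + 2 * z + A * z + m * (3 + C) * z := by ring
  rw [e8]
  linarith

end Pool.P5E
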