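import Pool.Agent.H12.P5.Stm
import Pool.Agent.H89.P4.Mono
import Pool.Agent.H66.P4.Cell

/-!
# P5: a larger constant, the steps
-/

set_option autoImplicit false

namespace Pool.P5

open Finset Real MvPolynomial
open Pool.Agent.H49.Ent Pool.Agent.H32.Dense Pool.STK Pool.STAT Pool.MIC.Frm Pool.MIC7 Pool.FRM
open Pool.GSD
open Pool.BFL (Pb)
open Pool.P4 (t0 rt pp PthC FraC bb ze zt z0 be cl1 dg dgp Ry cb LLC tq GoodS FrP err exp_mz)

/-- The steps. -/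
theorem stp_y {n : ℕ} {gam : ℕ → ℝ} (h : Gam3 n gam) (y : ℕ) :
    Stp n gam y (2 * y) y (3 * y) (9 * y) y := ⟨h, rfl, rfl, rfl, rfl, le_rfl⟩

variable {D : NDat2} {n K' J w₀ z M i j r r2 r' r'' : ℕ} {gam : ℕ → ℝ} {C C' τ τ' : ℝ}
  {q : D.Ω → ℝ} {E : D.Ω → Prop} {P : D.Γ × D.Γ → ℕ → PN} {S : Slo D} {ω : D.Ω}

theorem geo_le (h : Geo D n K' J w₀ z i j r r2 r' r'' gam C τ q E P S) (hC : C ≤ C')
    (hτ0 : 0 ≤ τ) (hτ : τ ≤ τ') : Geo D n K' J w₀ z i j r r2 r' r'' gam C' τ' q E P S where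
  tri := h.tri
  deg := h.deg
  near := fun ω hω hE i' hi' l hl =>
    ⟨(h.near ω hω hE i' hi' l hl).1.trans
      (div_le_div_of_nonneg_right (exp_mz hC z) (by positivity)),
      (h.near ω hω hE i' hi' l hl).2.trans
      (div_le_div_of_nonneg_right (exp_mz hC z) (by positivity))⟩
  bz := fun ω hω hE l h1 h2 => (h.bz ω hω hE l h1 h2).trans (exp_mz hC z)
  bt := fun ω hω hE l h1 h2 w w1 w2 =>
    ⟨(h.bt ω hω hE l h1 h2 w w1 w2).1.trans (exp_mz hC z),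
      (h.bt ω hω hE l h1 h2 w w1 w2).2.1.trans (exp_mz hC z),
      (h.bt ω hω hE l h1 h2 w w1 w2).2.2.trans (exp_mz hC z)⟩
  bS := fun ω u k => (h.bS ω u k).trans (exp_mz hC z)
  bEl := fun ω u k => (h.bEl ω u k).trans (exp_mz hC z)
  bEv := fun ω u k w hw => (h.bEv ω u k w hw).trans (exp_mz hC z)
  tS := h.tS
  tE := h.tE
  slow0 := fun ω hω hE l hl w w1 w2 =>
    ⟨(h.slow0 ω hω hE l hl w w1 w2).1.trans hτ, (h.slow0 ω hω hE l hl w w1 w2).2.1.trans hτ,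
      (h.slow0 ω hω hE l hl w w1 w2).2.2.trans hτ⟩
  slow1 := fun ω hω hE l hl w w1 w2 =>
    ⟨(h.slow1 ω hω hE l hl w w1 w2).1.trans hτ, (h.slow1 ω hω hE l hl w w1 w2).2.trans hτ⟩
  grp := fun ω hω hE l hl w w1 w2 => (h.grp ω hω hE l hl w w1 w2).trans hτ
  left := fun ω ω' a b c d e f w w1 w2 g =>
    ⟨fun l hl => ⟨((h.left ω ω' a b c d e f w w1 w2 g).1 l hl).1.trans hτ,
        ((h.left ω ω' a b c d e f w w1 w2 g).1 l hl).2.trans hτ⟩,
      fun l hl => ⟨((h.left ω ω' a b c d e f w w1 w2 g).2 l hl).1.trans hτ,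
        ((h.left ω ω' a b c d e f w w1 w2 g).2 l hl).2.trans hτ⟩⟩
  left2 := fun ω ω' a b c d e f w w1 w2 g =>
    ⟨fun l hl => ((h.left2 ω ω' a b c d e f w w1 w2 g).1 l hl).trans hτ,
      fun l hl => ((h.left2 ω ω' a b c d e f w w1 w2 g).2.1 l hl).trans hτ,
      fun l hl => ((h.left2 ω ω' a b c d e f w w1 w2 g).2.2 l hl).trans hτ⟩
  left3 := fun ω ω' a b c d e f w w1 w2 g l h1 h2 =>
    ⟨(h.left3 ω ω' a b c d e f w w1 w2 g l h1 h2).1.trans hτ,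
      (h.left3 ω ω' a b c d e f w w1 w2 g l h1 h2).2.1.trans hτ,
      (h.left3 ω ω' a b c d e f w w1 w2 g l h1 h2).2.2.trans hτ⟩
  right := fun ω ω' a b c d e f g u hu =>
    ⟨(h.right ω ω' a b c d e f g u hu).1.trans hτ,
      fun k hk => ((h.right ω ω' a b c d e f g u hu).2 k hk).trans hτ⟩
  right2 := fun ω ω' a b c d e f g =>
    ⟨fun u hu k hk => ((h.right2 ω ω' a b c d e f g).1 u hu k hk).trans hτ,
      fun l hl k hk => ((h.right2 ω ω' a b c d e f g).2 l hl k hk).trans hτ⟩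
  right3 := fun ω ω' a b c d e f g u hu k hk w w1 w2 =>
    (h.right3 ω ω' a b c d e f g u hu k hk w w1 w2).trans hτ
  leaf := fun ω ω' a b c d e f g =>
    ⟨fun l hl => ((h.leaf ω ω' a b c d e f g).1 l hl).trans hτ,
      fun u hu w w1 w2 => ((h.leaf ω ω' a b c d e f g).2 u hu w w1 w2).trans hτ⟩
  sheet := fun ω hω hE Bx hB b hb h1 h2 u hu => by
    refine (h.sheet ω hω hE Bx hB b hb h1 h2 u hu).trans ?_
    refine mul_le_mul ?_ hτ hτ0 (Real.exp_pos _).le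
    rw [mul_assoc, mul_assoc]
    refine Real.exp_le_exp.mpr (mul_le_mul_of_nonneg_right hC ?_)
    have : (0 : ℝ) ≤ z := Nat.cast_nonneg z
    nlinarith
  toV := fun ω ω' a b c d e f l h1 h2 δ hδ g =>
    (h.toV ω ω' a b c d e f l h1 h2 δ hδ g).trans (mul_le_mul_of_nonneg_right (exp_mz hC z) hδ)
  ofV := fun ω ω' a b c d e f l h1 h2 δ hδ g =>
    (h.ofV ω ω' a b c d e f l h1 h2 δ hδ g).trans (mul_le_mul_of_nonneg_right (exp_mz hC z) hδ)

theorem dep_le (h : Dep D n J w₀ z M i j r C q E P) (hC : C ≤ C') :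
    Dep D n J w₀ z M i j r C' q E P where
  ctx := fun i' h1 h2 ω ω' a b c d e f w w1 w2 g l l1 l2 =>
    ⟨(h.ctx i' h1 h2 ω ω' a b c d e f w w1 w2 g l l1 l2).1.trans
      (div_le_div_of_nonneg_right (exp_mz hC z) (by positivity)),
      (h.ctx i' h1 h2 ω ω' a b c d e f w w1 w2 g l l1 l2).2.1.trans
      (div_le_div_of_nonneg_right (exp_mz hC z) (by positivity)),
      (h.ctx i' h1 h2 ω ω' a b c d e f w w1 w2 g l l1 l2).2.2.trans
      (div_le_div_of_nonneg_right (exp_mz hC z) (by positivity))⟩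
  toV := fun i' h1 h2 ω ω' a b c d e f g l l1 l2 δ hδ h' =>
    (h.toV i' h1 h2 ω ω' a b c d e f g l l1 l2 δ hδ h').trans
      (mul_le_mul_of_nonneg_right (exp_mz hC z) hδ)
  ofV := fun i' h1 h2 ω ω' a b c d e f g l l1 l2 δ hδ h' =>
    (h.ofV i' h1 h2 ω ω' a b c d e f g l l1 l2 δ hδ h').trans
      (mul_le_mul_of_nonneg_right (exp_mz hC z) hδ)

end Pool.P5
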