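import Pool.Agent.H12.P5.Stm
import Pool.Agent.H65.NFC.One

/-!
# P5 with one closed context

`P5T1`, `P5Stmt1`: the local theorem P5 with `NFc1` in place of `NFc`.
-/

set_option autoImplicit false

namespace Pool.P5

open Finset Real MvPolynomial
open Pool.Agent.H49.Ent Pool.Agent.H32.Dense Pool.STK Pool.STAT
open Pool.P4 (GnL NewLabT NFc NFc1)

/-- **P5, the local theorem**, one closed context. -/
def P5T1 (n K A B : ℕ) (gam : ℕ → ℝ) (R : ℕ → Prop) (C₁ h δ : ℝ) : Prop :=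
  ∃ (M Q K' : ℕ) (η' κ ϖ : ℝ) (z₀ : ℕ), 0 < η' ∧ 0 < κ ∧ 0 < ϖ ∧ ϖ ≤ 1 ∧
    ∀ (lam : ℕ → ℝ) (J a₀ w₀ z : ℕ) (D : NDat2) (q : D.Ω → ℝ) (U : GnL D),
      (∀ l, 1 ≤ l → l ≤ n → lam l = 1) → z₀ ≤ z →
      D.Ok2 n K J a₀ w₀ z M lam gam κ C₁ q → D.NF n z M B gam h C₁ ϖ q →
      NFc1 D n z M B gam (h + δ) C₁ q → D.TmU J w₀ z κ q → U.Ok n K J a₀ w₀ z M Q R C₁ q →
      ∃ l, 1 ≤ l ∧ l ≤ n ∧ (l = n ∨ (R l ∧ gr gam n l)) ∧ ∃ i ≤ M, ∃ j ≤ M,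
        NewLabT D U J a₀ w₀ z Q R i j l A K' η' q

/-- **P5**, all cells with the slopes `0, 1, 2` and the slope `2` of the target, one closed
context. -/
def P5Stmt1 : Prop :=
  ∀ (n B : ℕ) (h₀ : ℝ), 1 ≤ n → 1 ≤ B → 0 < h₀ → ∃ δ : ℝ, 0 < δ ∧
    ∀ (K A : ℕ) (gam : ℕ → ℝ) (R : ℕ → Prop) (C₁ h : ℝ), h₀ ≤ h → h ≤ 1 → Gam3 n gam →
    (∀ l, gr gam n l → l < n → R l) → (∀ l, sl0 gam n l → R l) → 1 ≤ C₁ →
    P5T1 n K A B gam R C₁ h δ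

/-- The theorem with one context contains the theorem with two. -/
theorem P5T1.two {n K A B : ℕ} {gam : ℕ → ℝ} {R : ℕ → Prop} {C₁ h δ : ℝ}
    (H : P5T1 n K A B gam R C₁ h δ) : P5T n K A B gam R C₁ h δ := by
  obtain ⟨M, Q, K', η', κ, ϖ, z₀, h1, h2, h3, h4, H⟩ := H
  refine ⟨M, Q, K', η', κ, ϖ, z₀, h1, h2, h3, h4, ?_⟩
  intro lam J a₀ w₀ z D q U hl hz hO hN hNc hT hU
  exact H lam J a₀ w₀ z D q U hl hz hO hN (NFc1.of_two hO.isLaw.nonneg hNc) hT hU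

end Pool.P5
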