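import Pool.Agent.H12.P5.Stm
import Pool.Agent.H35.P4.Red2

/-!
# P5: the reduction to cells with collinear contexts

`red2`: the local theorem in the cells with `DMA` and `LLC` (constant `CL` given before the size of
the cell) gives the local theorem `P5T`.
-/

set_option autoImplicit false

namespace Pool.P5

open Finset Real MvPolynomial
open Pool.Agent.H49.Ent Pool.Agent.H32.Dense Pool.STK Pool.STAT
open Pool.BFL (Pb)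
open Pool.P4 (GnL NewLabT NFc LLC ok2_one)

/-- **P5**, in a cell with the additional laws. -/
def P5X2 (n K A B : ℕ) (gam : ℕ → ℝ) (R : ℕ → Prop) (C₁ CL h δ : ℝ) : Prop :=
  ∃ (M Q K' : ℕ) (η' κ ϖ : ℝ) (z₀ : ℕ), 0 < η' ∧ 0 < κ ∧ 0 < ϖ ∧ ϖ ≤ 1 ∧
    ∀ (lam : ℕ → ℝ) (J a₀ w₀ z : ℕ) (D : NDat2) (q : D.Ω → ℝ) (U : GnL D),
      (∀ l, 1 ≤ l → l ≤ n → lam l = 1) → z₀ ≤ z →
      D.Ok2 n K J a₀ w₀ z M lam gam κ C₁ q → D.DMA z M κ q → LLC D n z M CL q →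
      D.TmU J w₀ z κ q → D.NF n z M B gam h C₁ ϖ q → NFc D n z M B gam (h + δ) C₁ q →
      U.Ok n K J a₀ w₀ z M Q R C₁ q →
      ∃ l, 1 ≤ l ∧ l ≤ n ∧ (l = n ∨ (R l ∧ gr gam n l)) ∧ ∃ i ≤ M, ∃ j ≤ M,
        NewLabT D U J a₀ w₀ z Q R i j l A K' η' q

/-- **The reduction.** -/
theorem red2 {n K A B : ℕ} {gam : ℕ → ℝ} {R : ℕ → Prop} {C₁ h δ : ℝ} (hn : 1 ≤ n)
    (hgam : ∀ l, 0 ≤ gam l) (hC : 1 ≤ C₁) (H : ∀ CL : ℝ, P5X2 n K A B gam R C₁ CL h δ) :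
    P5T n K A B gam R C₁ h δ := by
  obtain ⟨CL, -, hL⟩ := Pool.MIC7.llc_all n K (fun _ => 1) gam C₁ hC (fun _ _ _ => le_rfl) hgam
  obtain ⟨M', Q', K', η', κ', ϖ, z₁, hη', hκ', hϖ, hϖ1, H⟩ := H CL
  obtain ⟨κ₃, z₃, hκ₃, hL⟩ : ∃ (κ₀ : ℝ) (z₀ : ℕ), 0 < κ₀ ∧
      ∀ (J a₀ w₀ z : ℕ) (κ κ' : ℝ) (D : NDat2) (q : D.Ω → ℝ), z₀ ≤ z → κ ≤ κ₀ → κ' ≤ 1 →
      D.Ok2 n K J a₀ w₀ z M' (fun _ => 1) gam κ C₁ q → D.DMP z M' κ' q →
      LLC D n z M' CL q := by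
    rcases Nat.lt_or_ge M' 2 with hM | hM
    · refine ⟨1, 0, one_pos, ?_⟩
      intro J a₀ w₀ z κ κ' D q _ _ _ _ _ i j r U h1 h2 h3 h4
      omega
    · obtain ⟨κ₀, z₀, h1, h2⟩ := hL M' hM
      exact ⟨κ₀, z₀, h1, fun J a₀ w₀ z κ κ' D q a b c d e i j r U =>
        h2 J a₀ w₀ z κ κ' D q a b c d e i j r U⟩
  obtain ⟨κs, hκs⟩ : ∃ κs : ℝ, κs = min κ' (min κ₃ 1) := ⟨_, rfl⟩
  have hs0 : 0 < κs := by rw [hκs]; exact lt_min hκ' (lt_min hκ₃ one_pos)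
  have hs1 : κs ≤ κ' := by rw [hκs]; exact min_le_left _ _
  have hs2 : κs ≤ κ₃ := by rw [hκs]; exact (min_le_right _ _).trans (min_le_left _ _)
  have hs3 : κs ≤ 1 := by rw [hκs]; exact (min_le_right _ _).trans (min_le_right _ _)
  obtain ⟨M, κ, z₂, hκ, H2⟩ := P4.sub_dmp n K hn (fun _ => 1) gam (fun _ _ _ => le_rfl) hgam C₁
    (by linarith) M' 2 κs hs0
  refine ⟨M, Q' * (M + 1), K', η', min κ κs, ϖ, max z₁ (max z₂ z₃), hη', lt_min hκ hs0, hϖ, hϖ1,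
    ?_⟩
  intro lam J a₀ w₀ z D q U hlam hz hO' hN hNc hT hU
  have hz1 : z₁ ≤ z := (le_max_left _ _).trans hz
  have hz2 : z₂ ≤ z := ((le_max_left _ _).trans (le_max_right _ _)).trans hz
  have hz3 : z₃ ≤ z := ((le_max_right _ _).trans (le_max_right _ _)).trans hz
  have hO := ok2_one hO' hlam
  obtain ⟨N, i₀, j₀, hN2, hG, -, hF, hP⟩ := H2 J a₀ w₀ z D q hz2 (hO.mono_κ (min_le_left _ _))
  have hNR : (2 : ℝ) ≤ N := by exact_mod_cast hN2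
  have hκN : min κ κs ≤ κs * N := by
    have h1 : κs * 1 ≤ κs * N := mul_le_mul_of_nonneg_left (by linarith) hs0.le
    exact (min_le_right _ _).trans (by linarith)
  have hC0 : 0 ≤ C₁ := by linarith
  have hCN : C₁ ≤ C₁ * N := by
    have h1 : C₁ * 1 ≤ C₁ * N := mul_le_mul_of_nonneg_left (by linarith) hC0
    linarith
  have hNM : N ≤ M + 1 := by
    have h1 := hG.i_le
    have h2 : N ≤ (M' + 1) * N := Nat.le_mul_of_pos_left N (by omega)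
    omega
  have hQ : Q' * N ≤ Q' * (M + 1) := Nat.mul_le_mul_left Q' hNM
  have hzN : z ≤ N * z := Nat.le_mul_of_pos_left _ (by omega)
  have hj₀ : w₀ + j₀ * z ≤ J := by
    have h1 := hG.lej (Nat.zero_le M')
    rw [Nat.zero_mul, Nat.add_zero] at h1
    have h2 : j₀ * z ≤ (M + 1) * z := Nat.mul_le_mul_right z (by omega)
    have h3 := hO.thin
    have h4 := hO.top
    omega
  have hOs := hO.sc hG hN2 hC0 hκN
  obtain ⟨l, l1, l2, hl, i, hi, j, hj, hlab⟩ := H (fun _ => 1) J (a₀ + i₀ * z) (w₀ + j₀ * z)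
    (N * z) (D.sc J w₀ i₀ j₀ N z) q (U.sc J w₀ i₀ j₀ N z) (fun _ _ _ => rfl) (hz1.trans hzN)
    (hOs.mono_κ hs1) (hF.mono hs1)
    (hL J (a₀ + i₀ * z) (w₀ + j₀ * z) (N * z) κs κs (D.sc J w₀ i₀ j₀ N z) q (hz3.trans hzN) hs2
      hs3 hOs hP)
    (by
      have h1 := hT.sc hO hG hκN
      unfold NDat2.TmU at h1 ⊢
      have h2 : κs * ((N * z : ℕ) : ℝ) ≤ κ' * ((N * z : ℕ) : ℝ) :=
        mul_le_mul_of_nonneg_right hs1 (Nat.cast_nonneg _)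
      linarith)
    (hN.sc hG (hgam n) hCN) (hNc.sc hO hG (hgam n) hC0)
    (hU.sc hG hC0 hQ hj₀)
  exact ⟨l, l1, l2, hl, _, hG.lei hi, _, hG.lej hj,
    NewLabT.of_sc hO.isLaw.nonneg hG hO.thin hO.top hj hQ hlab⟩

end Pool.P5
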