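import Pool.Agent.H14.P5.VCell
import Pool.Agent.H14.P5.H0
import Pool.Agent.H14.P5.Dep
import Pool.Agent.H14.P5.Red2
import Pool.Agent.H21.P5.EndB5
import Pool.Agent.H46.P5.Ful
import Pool.Agent.H25.P5.Hs
import Pool.Agent.H98.P5.NF

/-!
# P5: the local theorem

`p5_of`: the local theorem in the cells with the slopes `0, 1, 2` and the slope `2` of the target
(`P5Stmt`), from the geometry and the two pieces about the time.
-/

set_option autoImplicit false

namespace Pool.P5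

open Pool.STAT Pool.P4

/-- The statement is trivial if a slope is negative. -/
theorem p5T_neg {n K A B : ℕ} {gam : ℕ → ℝ} {R : ℕ → Prop} {C₁ h δ : ℝ}
    (hg : ¬ ∀ l, 0 ≤ gam l) : P5T n K A B gam R C₁ h δ := by
  refine ⟨0, 0, 0, 1, 1, 1, 0, one_pos, one_pos, one_pos, le_rfl, ?_⟩
  intro lam J a₀ w₀ z D q U _ _ hO
  exact absurd hO.gam_ge hg

/-- **(CELLF)** from the geometry. -/
theorem cellF_geo (hG : GeoStmt) (ht : TFStmt) (hT : TMStmt) : CellFStmt :=
  cellF_of hG P5E.h0_stmt h2 P546.yf_stmt P546.lf_stmt P546.rf_stmt ht P5N.nf_stmt hs hT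

/-- **P5** from the geometry. -/
theorem p5_of (hG : GeoStmt) (ht : TFStmt) (hT : TMStmt) : P5Stmt := by
  intro n B h₀ hn hB hh₀
  obtain ⟨δ, hδ, H⟩ := p5x_of (vcellS_of (cellF_geo hG ht hT)) n B h₀ hn hB hh₀
  refine ⟨δ, hδ, fun K A gam R C₁ h h1 h2 g3 gR _ hC => ?_⟩
  by_cases g0 : ∀ l, 0 ≤ gam l
  · exact red2 hn g0 hC fun CL => H K A gam R C₁ CL h h1 h2 g3 g0 gR hC
  · exact p5T_neg g0

end Pool.P5
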