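import Pool.Agent.H14.P5.Num
import Pool.Agent.H16.P4.H0

/-!
# P5, the hypothesis (H0): preparations
-/

set_option autoImplicit false

namespace Pool.P5E

open Finset Real
open Pool.Agent.H49.Ent Pool.Agent.H32.Dense Pool.STK Pool.MIC Pool.STAT Pool.P5
open Pool.BFL (Pb)
open Pool.MIC.Frm Pool.MIC7 Pool.FRM Pool.GSD
open Pool.P4 (t0 rt pp PthC FraC bb ze zt z0 be cl1 dg dgp Ry cb LLC tq GoodS FrP err)
open Pool.P4E (wn_coarse lft_one few_idx use_gen quo_sub fb fb_le l7 l5 fb1_le Pb_le_one dg_sub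
  dg_abs dgp_sub dgp_abs log_le lft_cls)

section hyp

variable {D : NDat2} {n K K' J a₀ w₀ z M w i j r r2 r' r'' y a X : ℕ} {lam gam : ℕ → ℝ}
  {κ C₁ C : ℝ} {q : D.Ω → ℝ} {E : D.Ω → Prop} {P : D.Γ × D.Γ → ℕ → PN}
  {S : Slo D} {c k0 k1 : ℕ} {ys : Fin (k0 + k1) → ℕ} {gs : Fin c → ℕ}

theorem wX_le (H : Hyp D n K K' J a₀ w₀ z M w i j r r2 r' r'' y a X lam gam κ C₁ C q E P S ys gs) :
    w + X ≤ J := by
  obtain ⟨x, hx1, hx2⟩ := H.Xz
  have h1 := H.ok.thin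
  have h2 := H.ok.top
  have h3 := H.w2
  have h4 := H.j2
  have h5 : (j + 1) * z ≤ M * z := Nat.mul_le_mul_right _ (by omega)
  have h6 : x * z ≤ M * z := Nat.mul_le_mul_right _ (by omega)
  have h7 : (M + 1) * z = M * z + z := by ring
  omega

theorem c_rad (H : Hyp D n K K' J a₀ w₀ z M w i j r r2 r' r'' y a X lam gam κ C₁ C q E P S ys gs)
    {i' j' s : ℕ} (h1 : i' + s ≤ M) (h2 : j' ≤ M) : Det q (D.c (i' + s) j') (D.c i' j') := by
  induction s with
  | zero => exact fun _ _ _ _ h => h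
  | succ s ih =>
    intro ω ω' a b h
    exact ih (by omega) ω ω' a b (H.ok.c_i (i' + s) (by omega) j' h2 ω ω' a b h)

/-- The context of the radius `i' - 1`. -/
theorem c_rad1 (H : Hyp D n K K' J a₀ w₀ z M w i j r r2 r' r'' y a X lam gam κ C₁ C q E P S ys gs)
    {i' j' s : ℕ} (h1 : i' + s ≤ M) (h2 : j' ≤ M) : Det q (D.c (i' + s) j') (D.c (i' - 1) j') := by
  have h3 := c_rad H (i' := i' - 1) (j' := j') (s := s + (i' - (i' - 1))) (by omega) h2
  rwa [show i' - 1 + (s + (i' - (i' - 1))) = i' + s by omega] at h3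

theorem bb_wn (H : Hyp D n K K' J a₀ w₀ z M w i j r r2 r' r'' y a X lam gam κ C₁ C q E P S ys gs) :
    Det q (D.wn J w) (bb D i j r) := by
  intro ω ω' a b e
  have hX := wX_le H
  have hw := H.w1
  have h4 := H.j2
  have h5 := H.i2
  have h6 : w₀ + (j - r) * z ≤ w₀ + j * z := by
    have : (j - r) * z ≤ j * z := Nat.mul_le_mul_right _ (Nat.sub_le _ _)
    omega
  have e1 := wn_coarse D q hw (by omega) ω ω' a b e
  have e2 := wn_coarse D q (h6.trans hw) (by omega) ω ω' a b e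
  exact Prod.ext (H.ok.c_wn i (by omega) j (by omega) ω ω' a b e1)
    (H.ok.c_wn (i - 1) (by omega) (j - r) (by omega) ω ω' a b e2)

/-- **The information between the two sides**, in the picture context. -/
theorem mi_cb (H : Hyp D n K K' J a₀ w₀ z M w i j r r2 r' r'' y a X lam gam κ C₁ C q E P S ys gs)
    {r₁ : ℕ} (h1 : r₁ ≤ i) (h2 : i + r₁ < M) :
    CH q (D.rgt i j r₁ r 1) (fun ω => (D.T ω, cb D J w i j r ω)) ≤
      CH q (D.rgt i j r₁ r 1) (fun ω => (D.lft i j r₁ r 1 ω, (D.T ω, cb D J w i j r ω))) +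
        κ * z := by
  have hq := H.ok.isLaw.nonneg
  have h3 := H.j1
  have h4 := H.j2
  have a1 := H.dma.rl hq (i := i) (j := j) (a := r₁) (b := r) (s := 1) (s' := 1) (by omega)
    (by omega) (by omega) (by omega)
  have a2 : CH q (D.rgt i j r₁ r 1) (fun ω => (D.T ω, cb D J w i j r ω)) ≤
      CH q (D.rgt i j r₁ r 1) (fun ω => (D.c i j ω, D.T ω)) :=
    CH_mono_cond hq fun ω ω' _ _ e => by
      have e1 := Prod.ext_iff.1 e
      have e2 := Prod.ext_iff.1 e1.2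
      have e3 : D.c i j ω = D.c i j ω' := (Prod.ext_iff.1 e2.1).1
      exact Prod.ext e3 e1.1
  have a3 : CH q (D.rgt i j r₁ r 1) (fun ω => (D.lft i j r₁ r 1 ω, (D.c i j ω, D.T ω))) ≤
      CH q (D.rgt i j r₁ r 1) (fun ω => (D.lft i j r₁ r 1 ω, (D.T ω, cb D J w i j r ω))) :=
    CH_mono_cond hq fun ω ω' a b e => by
      have e1 := Prod.ext_iff.1 e
      have e2 := Prod.ext_iff.1 e1.2
      have e3 := congrFun e1.1 (1 : Fin 2)
      have e4 : D.c (i + r₁) (j - r) ω = D.c (i + r₁) (j - r) ω' := by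
        have e5 : D.c (i + ((1 : Fin 2) : ℕ) * r₁) (j - ((1 : Fin 2) : ℕ) * r) ω =
          D.c (i + ((1 : Fin 2) : ℕ) * r₁) (j - ((1 : Fin 2) : ℕ) * r) ω' := e3
        simpa using e5
      have e6 := c_rad1 H (i' := i) (j' := j - r) (s := r₁) (by omega) (by omega) ω ω' a b e4
      refine Prod.ext e1.1 (Prod.ext e2.2 (Prod.ext (Prod.ext e2.1 e6) ?_))
      show D.T ω / 2 ^ (J - w) = D.T ω' / 2 ^ (J - w)
      have : D.T ω = D.T ω' := e2.2
      rw [this]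
  linarith

/-- The right label. -/
theorem rgt_one (H : Hyp D n K K' J a₀ w₀ z M w i j r r2 r' r'' y a X lam gam κ C₁ C q E P S ys gs)
    {r₁ : ℕ} {ω ω' : D.Ω} (a : 0 < q ω) (b : 0 < q ω')
    (h : D.rgt i j r₁ r 1 ω = D.rgt i j r₁ r 1 ω') (hT : D.T ω = D.T ω') :
    D.s (i - r₁) (j + r) ω = D.s (i - r₁) (j + r) ω' := by
  have e3 := congrFun h (1 : Fin 2)
  have e5 : D.c (i - ((1 : Fin 2) : ℕ) * r₁) (j + ((1 : Fin 2) : ℕ) * r) ω =
    D.c (i - ((1 : Fin 2) : ℕ) * r₁) (j + ((1 : Fin 2) : ℕ) * r) ω' := e3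
  have e6 : D.c (i - r₁) (j + r) ω = D.c (i - r₁) (j + r) ω' := by simpa using e5
  have h4 := H.j2
  have h5 := H.i2
  exact H.ok.s_c (i - r₁) (by omega) (j + r) (by omega) ω ω' a b (Prod.ext e6 hT)

theorem Ry_one (H : Hyp D n K K' J a₀ w₀ z M w i j r r2 r' r'' y a X lam gam κ C₁ C q E P S ys gs) :
    1 ≤ Ry z C := by
  unfold Ry
  have h1 := H.Cg
  exact Real.one_le_exp (by positivity)

theorem tau_le (H : Hyp D n K K' J a₀ w₀ z M w i j r r2 r' r'' y a X lam gam κ C₁ C q E P S ys gs) :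
    2 ^ X * (exp (C * z) / 2 ^ (y * z)) ≤ 1 := by
  have h := H.yX
  have hy : (0 : ℝ) < 2 ^ (y * z) := by positivity
  rw [← mul_div_assoc, div_le_one hy]
  linarith

end hyp

end Pool.P5E
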