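import Pool.Agent.H14.P5.P5
import Pool.Agent.H35.P5.Geo
import Pool.Agent.H35.P5.Tm
import Pool.Agent.H12.P5.LfI
import Pool.Agent.H38.P5.Slp
import Pool.Agent.H19.P5.LinF
import Pool.Agent.H98.P5.Own
import Pool.Agent.H70.P4.Pth
import Pool.Agent.H14.P4.Cfr2

/-!
# P5: the local theorem

`p5`: the local theorem in the cells with the slopes `0, 1, 2` and the slope `2` of the target
(`P5Stmt`). `p5x`: the same in a cell with the additional laws.
-/

set_option autoImplicit false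

namespace Pool.P5

open Pool.STAT Pool.P4

/-- **(LEAF)** -/
theorem leaf_thm : LeafStmt := Pool.P5L.leaf_of Pool.P5L.slp

/-- **(GEO)** -/
theorem geo_thm : GeoStmt :=
  geo_of Pool.P4.pth_stmt Pool.P4.cfr_stmt Pool.P5N.lin_stmt Pool.P5O.own_stmt leaf_thm dep_stmt

/-- **(VCELL)** -/
theorem vcell_thm : VCellS5 := vcellS_of (cellF_geo geo_thm tf_stmt tm_stmt)

/-- **P5**, in a cell with the additional laws. -/
theorem p5x (n B : ℕ) (h₀ : ℝ) (hn : 1 ≤ n) (hB : 1 ≤ B) (hh₀ : 0 < h₀) :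
    ∃ δ : ℝ, 0 < δ ∧ ∀ (K A : ℕ) (gam : ℕ → ℝ) (R : ℕ → Prop) (C₁ CL h : ℝ), h₀ ≤ h → h ≤ 1 →
      Gam3 n gam → (∀ l, 0 ≤ gam l) → (∀ l, gr gam n l → l < n → R l) → 1 ≤ C₁ →
      P5X2 n K A B gam R C₁ CL h δ :=
  p5x_of vcell_thm n B h₀ hn hB hh₀

/-- **P5**: the local theorem. -/
theorem p5 : P5Stmt := p5_of geo_thm tf_stmt tm_stmt

end Pool.P5
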