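import Pool.Agent.H14.P5.Top
import Pool.Agent.H14.P5.One
import Pool.Agent.H65.NFC.Red

/-!
# P5: the local theorem with one closed context

`p5_1`: the local theorem P5 with `NFc1` in place of `NFc` (`P5Stmt1`).
-/

set_option autoImplicit false

namespace Pool.P5

open Pool.STAT Pool.P4

/-- The statement is trivial if a slope is negative. -/
theorem p5T1_neg {n K A B : ℕ} {gam : ℕ → ℝ} {R : ℕ → Prop} {C₁ h δ : ℝ}
    (hg : ¬ ∀ l, 0 ≤ gam l) : P5T1 n K A B gam R C₁ h δ := by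
  refine ⟨0, 0, 0, 1, 1, 1, 0, one_pos, one_pos, one_pos, le_rfl, ?_⟩
  intro lam J a₀ w₀ z D q U _ _ hO
  exact absurd hO.gam_ge hg

/-- **P5**, one closed context. -/
theorem p5_1 : P5Stmt1 := by
  intro n B h₀ hn hB hh₀
  obtain ⟨δ, hδ, H⟩ := p5x n B h₀ hn hB hh₀
  refine ⟨δ, hδ, fun K A gam R C₁ h h1 h2 g3 gR _ hC => ?_⟩
  by_cases g0 : ∀ l, 0 ≤ gam l
  · exact Pool.NFC65.red3 (Cl := gr gam n) hn hB g0 hC fun C₂ hC2 CL =>
      H K A gam R C₂ CL h h1 h2 g3 g0 gR (hC.trans hC2)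
  · exact p5T1_neg g0

end Pool.P5
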