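import Pool.Agent.H14.P5.CellF
import Pool.Agent.H14.P4.VCell
import Pool.Agent.H98.P5.NFv
import Pool.Agent.H98.P5.HF
import Pool.Agent.H52.P5.LabS
import Pool.Agent.H21.P5.EndS5
import Pool.Agent.H98.P5.V7
import Pool.Agent.H25.P5.V6

/-!
# P5: the cell with its visible chart

`vcellS_of`: in every cell there is a place with a visible chart (`VCellS5`).
-/

set_option autoImplicit false

namespace Pool.P5

open Finset Real MvPolynomial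
open Pool.Agent.H49.Ent Pool.Agent.H32.Dense Pool.STK Pool.STAT Pool.MIC.Frm Pool.MIC7 Pool.FRM
open Pool.GSD Pool.POT
open Pool.BFL (Pb)
open Pool.QC (nfb)
open Pool.P4 (t0 rt pp PthC FraC bb ze zt z0 be cl1 dg dgp Ry cb LLC tq GoodS FrP err exp_mz
  err_mono err_le NFc Dch yD rcd zdv zh zd cMx yF nF MF Rcv Cht dg_bd dgp_bd Fx)
open Pool.P5N (VisD)

theorem Ent5.mono {D : NDat2} {J w z i j r X : ℕ} {C : ℝ} {P : D.Γ × D.Γ → ℕ → PN} {S : Slo D}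
    {c k0 k1 : ℕ} {ys : Fin (k0 + k1) → ℕ} {gs : Fin c → ℕ} {q : D.Ω → ℝ} {n₀ : Fin c}
    {B B' : ℕ} {h d d' : ℝ} (H : Ent5 D J w z i j r X C P S ys gs q n₀ B B' h d) (hd : d ≤ d') :
    Ent5 D J w z i j r X C P S ys gs q n₀ B B' h d' where
  h0 := H.h0.trans (add_le_add le_rfl hd)
  h2 := H.h2.trans (add_le_add le_rfl hd)
  yf := H.yf.trans (add_le_add le_rfl hd)
  lf := H.lf.trans (add_le_add le_rfl hd)
  rf := H.rf.trans (add_le_add le_rfl hd)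
  tf := H.tf.trans (add_le_add le_rfl hd)
  nf := H.nf.trans (add_le_add le_rfl hd)
  hs := fun x hx => (sub_le_sub_left hd _).trans (H.hs x hx)
  nb := H.nb

/-- The visible digits and the record. -/
theorem visD_hat {D : NDat2} {z X : ℕ} {C : ℝ} {q : D.Ω → ℝ} {E : D.Ω → Prop} {c k : ℕ}
    {ys : Fin k → ℕ} {gs : Fin c → ℕ} {Sg : Type} {s : D.Ω → Sg} {zd : D.Ω → ℕ → ℝ} :
    VisD D z X C 1 q E ys gs s zd (nuD z X C zd gs) (yD z X C zd ys) s := by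
  have h := Pool.P4.visD_hat (D := D) (z := z) (X := X) (C := C) (q := q) (E := E) (ys := ys)
    (gs := gs) (s := s) (zd := zd)
  have h2 : (2 : ℝ) ^ X ≤ exp (1 * (z + X)) := by
    have e1 : (2 : ℝ) ^ X = exp (X * Real.log 2) := by
      rw [← Real.rpow_natCast, Real.rpow_def_of_pos (by norm_num)]
      ring_nf
    rw [e1]
    refine Real.exp_le_exp.2 ?_
    have h1 : Real.log 2 ≤ 1 := by
      have := Real.log_two_lt_d9
      linarith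
    have hX : (0 : ℝ) ≤ X := Nat.cast_nonneg X
    have hz : (0 : ℝ) ≤ z := Nat.cast_nonneg z
    nlinarith
  exact
    { nN := fun _ _ _ => rfl
      yY := fun _ _ _ => rfl
      nB := fun ω _ u => (dg_bd X _).trans h2
      yB := h.yB
      dS := fun _ _ _ _ h => h
      Sd := fun _ _ _ _ h => (Prod.ext_iff.1 h).2 }

/-- **The cell with its visible chart.** -/
theorem vcellS_of (hF : CellFStmt) : VCellS5 := by
  intro n K B gam C₁ CL h c k0 k1 ys gs n₀ n1 B1 g3 gam0 C1 hh0 hh1 y2 y1 y1' y3 y3' g1 g2 g3' g4 F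
  have gamn : 0 < gam n := by rw [g3.gn]; norm_num
  have hC₁0 : 0 ≤ C₁ := by linarith
  choose T1 hT1p hT1 using fun (K' : ℕ) (C₀ : ℝ) =>
    cht_hat n K K' c |C₀| C₁ (abs_nonneg C₀) hC₁0
  choose T2 hT2a hT2b hT2 using fun (K' : ℕ) (C₀ : ℝ) =>
    P4.dch n (max K K') |C₀| (abs_nonneg C₀)
  obtain ⟨K', C₀, C, hC₀, hCC, hCF, HF⟩ := hF n K B (fun _ => 1) gam C₁ h c k0 k1 ys gs n₀ n1 B1
    (fun _ _ _ => rfl) g3 C1 hh0 hh1 y2 y1 y1' y3 y3' g1 g2 g3' g4 CL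
    (fun K' C₀ => max (max (F K' C₀) CL) (3 + 2 * (T1 K' C₀ + T2 K' C₀)))
  have hC0 : 0 ≤ C₀ := by linarith
  have hC1 : 1 ≤ C := hC₀.trans hCC
  have hCn : 0 ≤ C := by linarith
  have H1 := hT1 K' C₀
  have H2 := hT2 K' C₀
  have hT1' := hT1p K' C₀
  have hT2' := hT2a K' C₀
  obtain ⟨t1, ht1⟩ : ∃ t, t = T1 K' C₀ := ⟨_, rfl⟩
  obtain ⟨t2, ht2⟩ : ∃ t, t = T2 K' C₀ := ⟨_, rfl⟩
  simp only [← ht1, ← ht2] at H1 H2 hT1' hT2' hCF
  rw [abs_of_nonneg hC0] at H1 H2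
  have hFC : F K' C₀ ≤ C := (le_max_left _ _).trans ((le_max_left _ _).trans hCF)
  have hCL : CL ≤ C := (le_max_right _ _).trans ((le_max_left _ _).trans hCF)
  have hTC : 3 + 2 * (t1 + t2) ≤ C := (le_max_right _ _).trans hCF
  refine ⟨K', C₀, C, hC₀, hCC, hFC, fun η hη => ?_⟩
  obtain ⟨s, hs, HF⟩ := HF η hη
  refine ⟨s, hs, fun B' U₀ y₀ io δ hB' hio hδ0 hδ => ?_⟩
  obtain ⟨A1, a1, HH⟩ := P5N.hf_vis n K K' c k0 k1 B C₁ C C 1 B1 hCn zero_le_one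
  obtain ⟨A2, a2, HN⟩ := P5N.nfv n K K' c k0 k1 B B' C₁ C C 1 B1 (by omega) hCn zero_le_one
  obtain ⟨A3, a3, HV⟩ := vch n K K' c k0 k1 C₁ C
  obtain ⟨A, hA⟩ : ∃ A : ℝ, A = A1 + A2 + A3 := ⟨_, rfl⟩
  have hA0 : 0 ≤ A := by rw [hA]; linarith
  have l1 : A1 ≤ A := by rw [hA]; linarith
  have l2 : A2 ≤ A := by rw [hA]; linarith
  have l3 : A3 ≤ A := by rw [hA]; linarith
  have hBr : (1 : ℝ) ≤ B := by exact_mod_cast B1
  have hB0 : (0 : ℝ) < B := by linarith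
  have hlog : 0 < Real.log 2 := Real.log_pos (by norm_num)
  have hlog1 : Real.log 2 ≤ 1 := by
    have := Real.log_two_lt_d9
    linarith
  obtain ⟨δ₁, hδ₁⟩ : ∃ δ₁ : ℝ, δ₁ = min (io / 4) (h / (2 * B) * Real.log 2 / (1 + B')) :=
    ⟨_, rfl⟩
  have hδ₁0 : 0 < δ₁ := by rw [hδ₁]; exact lt_min (by positivity) (by positivity)
  have hδa : δ₁ ≤ io / 4 := by rw [hδ₁]; exact min_le_left _ _
  have hδb : δ₁ ≤ h / (2 * B) * Real.log 2 / (1 + B') := by rw [hδ₁]; exact min_le_right _ _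
  obtain ⟨u1, hu1⟩ := exists_nat_ge (4 * A / δ₁)
  obtain ⟨u2, hu2⟩ := exists_nat_ge (A / (io * Real.log 2))
  obtain ⟨u3, hu3⟩ := exists_nat_ge (2 / io)
  obtain ⟨U, y, r, r2, r', r'', a, i, j, hU1, hU0, hy0, HM⟩ := HF B' (U₀ + u1 + u2 + u3) y₀
    (io / 2) hB' (by positivity)
  refine ⟨U, y, r, r2, r', r'', a, i, j, hU1, by omega, hy0, fun M₀ => ?_⟩
  obtain ⟨m1, hm1⟩ := exists_nat_ge (((B * U : ℕ) : ℝ) / gam n)
  obtain ⟨M, hM, hP, HE⟩ := HM (M₀ + i + j + B * (B * U) + B * (B * U) * r + B * U + U + m1 + 1)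
  refine ⟨M, by omega, fun e he => ?_⟩
  obtain ⟨e₂, he₂⟩ : ∃ e₂ : ℝ, e₂ = min e (δ₁ / (2 * (A + 1))) := ⟨_, rfl⟩
  have he₂0 : 0 < e₂ := by
    rw [he₂]
    exact lt_min he (by positivity)
  obtain ⟨κ, z₁, c4, c3, HZ⟩ := HE e₂ he₂0
  refine ⟨κ, max z₁ 1, c4, ?_⟩
  intro lam J a₀ w₀ z D q ϖ lam1 hz hϖ hO hDM hLLC hTm hNF hNFc
  have z1 : z₁ ≤ z := (le_max_left _ _).trans hz
  have z3 : 1 ≤ z := (le_max_right _ _).trans hz
  obtain ⟨w, E, P, S, hE, hHyp₁, hGeo, hgd, hdep, hOk, hTM⟩ := HZ J a₀ w₀ z D q ϖ z1 hϖ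
    (P4.vc_ok2 hO lam1) hDM hLLC hTm hNF
  have hHyp : Hyp D n K K' J a₀ w₀ z M w i j r r2 r' r'' y a (B * U * z) lam gam κ C₁ C q E P S
      ys gs := { hHyp₁ with
    ok := hO
    lam1 := lam1 }
  have hFx := hHyp.fx5 hGeo hgd
  have hzr : (1 : ℝ) ≤ z := by exact_mod_cast z3
  have hi : i ≤ M := by
    have := hHyp.i2
    omega
  have hj : j ≤ M := by
    have := hHyp.j2
    omega
  have hi1 : 1 ≤ i := hHyp.i0
  have hq := hO.isLaw
  -- the chart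
  obtain ⟨hnear, hcht⟩ := H1 D J a₀ w₀ z M w i j r r2 r' r'' y (B * U * z) a k0 k1 lam gam κ C q
    E P S ys gs hHyp hFx (by linarith)
  have hDch := H2 D K K' J a₀ w₀ z M i j r a (B * U * z) lam gam κ C₁ q E P hO (le_max_left _ _)
    (le_max_right _ _) z3 hi hj (fun ω hω => ⟨(hgd ω hω).1, (hgd ω hω).2.2⟩)
  have hX1 := P4N.dch_mono (P4N.dch_x hDch) (show t2 ≤ t1 + t2 by linarith)
  have hX2 := P4N.dch_near (zh := zh D i j r a E P) hX1 (by linarith) z3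
    (fun ω _ hω l l1 l2 => (hnear ω hω l l1 l2).trans
      (mul_le_mul_of_nonneg_right (P4.vc_exp (by linarith)) (by positivity)))
  have hX3 := P4N.dch_mono hX2 hTC
  -- numbers
  have hBU1 : 1 ≤ B * U := Nat.one_le_iff_ne_zero.2 (by positivity)
  have hXU : U * z ≤ B * U * z := Nat.mul_le_mul_right z (Nat.le_mul_of_pos_left U B1)
  have hXr : (U : ℝ) * z ≤ ((B * U * z : ℕ) : ℝ) := by exact_mod_cast hXU
  have hX0 : (0 : ℝ) ≤ ((B * U * z : ℕ) : ℝ) := Nat.cast_nonneg _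
  have hUr : (U₀ : ℝ) + u1 + u2 + u3 ≤ U := by exact_mod_cast hU0
  have hu0 : (0 : ℝ) ≤ U₀ := Nat.cast_nonneg _
  have hu1' : (0 : ℝ) ≤ u1 := Nat.cast_nonneg _
  have hu2' : (0 : ℝ) ≤ u2 := Nat.cast_nonneg _
  have hu3' : (0 : ℝ) ≤ u3 := Nat.cast_nonneg _
  have hb0 : 0 ≤ Pb q (fun ω => ¬ E ω) := Pool.MIC.Pb_nonneg hq.nonneg _
  have hb1 : Pb q (fun ω => ¬ E ω) ≤ δ₁ / (2 * (A + 1)) :=
    hE.trans (by rw [he₂]; exact min_le_right _ _)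
  have herr : ∀ A' : ℝ, A' ≤ A →
      err A' κ z (B * U * z) (Pb q (fun ω => ¬ E ω)) ≤ δ₁ * (B * U * z : ℕ) := fun A' hA' =>
    (err_mono hA' c4.le hb0).trans (err_le hA0 hδ₁0 c3 (by linarith) hXU hb1)
  have hM1 : ((B * U : ℕ) : ℝ) ≤ gam n * (M - j) := P4.vc_n6 gamn hm1 (by omega)
  have hM2 : (U : ℝ) ≤ gam n * (M - j) := by
    refine le_trans ?_ hM1
    exact_mod_cast Nat.le_mul_of_pos_left U B1
  -- the fields of the visible chart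
  have lo1 := hLLC i j r (B * (B * U)) hi1 hHyp.j1 (by omega) (by omega)
  have lo2 := hNFc i hi1 hi j hj r hHyp.j1 (B * U) (by omega) hM1
  have hf := HH D J a₀ w₀ z M w i j r r2 r' r'' y a (B * U) lam gam κ h (h + δ) ϖ q E P S ys gs
    (rcd D i j r a) (zh D i j r a E P) _ _ (rcd D i j r a)
    (fun ω => (D.c (i - 1) (j - r) ω, (D.c i j ω, D.T ω))) hHyp hX3 visD_hat hNF hϖ (by omega) hM1
    (by
      intro ω ω' _ _ h1
      simp only [P4.bb, Prod.mk.injEq] at h1 ⊢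
      exact ⟨⟨h1.2.1, h1.1⟩, h1.2.2⟩)
    (by
      have e1 : B * (B * U * z) = B * (B * U) * z := by ring
      rw [e1]
      exact P4.vc_n5 hCL lo1)
    lo2
  have hn := HN D J a₀ w₀ z M w i j r r2 r' r'' y a U lam gam κ h ϖ q E P S ys gs n₀ (rcd D i j r a)
    (zh D i j r a E P) _ _ (rcd D i j r a) hHyp hX3 visD_hat hNF hϖ g4 (by omega) hM2
  have hRcv : Rcv D n z i j r C q E (rcd D i j r a) (zh D i j r a E P) :=
    ⟨hX3.bs, fun ω ω' h1 h2 h3 => (hX3.sT ω ω' h1 h2 h3).1, hX3.bd⟩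
  have hv := HV D J a₀ w₀ z M w i j r r2 r' r'' y a (B * U * z) lam gam κ q E P S ys gs hHyp
    (rcd D i j r a) (zh D i j r a E P) (cMx D J a₀ z i j r a E P gs) hRcv hcht n₀ B' _ _
    (h / (4 * B)) hf hn (P4.vc_n4 hX0 hB0 (Nat.cast_nonneg B') hh0.le hlog.le hδb (herr _ l2)
      (herr _ l3))
  -- sizes
  have hUX : (U : ℝ) ≤ ((B * U * z : ℕ) : ℝ) := by
    refine le_trans ?_ hXr
    have := mul_le_mul_of_nonneg_left hzr (Nat.cast_nonneg (α := ℝ) U)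
    linarith
  have s1 : Real.log 2 ≤ io / 2 * ((B * U * z : ℕ) : ℝ) := by
    have e1 : 2 / io ≤ ((B * U * z : ℕ) : ℝ) := by linarith
    rw [div_le_iff₀ hio] at e1
    linarith
  have s2 : exp (A3 * z) ≤ (2 : ℝ) ^ (io * ((B * U * z : ℕ) : ℝ)) := by
    rw [Real.rpow_def_of_pos (by norm_num)]
    refine Real.exp_le_exp.2 ?_
    have e1 : A / (io * Real.log 2) ≤ U := by linarith
    rw [div_le_iff₀ (by positivity)] at e1
    exact P4.vc_n3 (Nat.cast_nonneg z) hlog.le hio.le e1 l3 hXr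
  have s3 : err A3 κ z (B * U * z) (Pb q (fun ω => ¬ E ω)) ≤ io * ((B * U * z : ℕ) : ℝ) :=
    P4.vc_n1 hX0 hio.le hδa (herr _ l3)
  have s4 : (h + δ - h) * ((B * U * z : ℕ) : ℝ) * Real.log 2 +
      err A1 κ z (B * U * z) (Pb q (fun ω => ¬ E ω)) +
      err A3 κ z (B * U * z) (Pb q (fun ω => ¬ E ω)) ≤ io * ((B * U * z : ℕ) : ℝ) :=
    P4.vc_n2 hX0 hio.le hδa hδ0.le hδ hlog1 (herr _ l1) (herr _ l3)
  refine ⟨w, E, P, S, hE.trans (by rw [he₂]; exact min_le_left _ _), ?_⟩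
  exact
    { hyp := hHyp
      geo := hGeo
      gd := hgd
      ent := hOk.mono (by linarith)
      tm := hTM
      vch := P4.vch_mono' hv s3 (by linarith [s4]) s2 }

end Pool.P5
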